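import Pool.Agent.Lib.H42.Cub.Eis

/-!
# Reductions of Eisenstein integers and cubic residues (helper42)
-/

set_option autoImplicit false

open QuadraticAlgebra

namespace Pool.Agent.H42.Cub

/-- The ring homomorphism sending `w` to a root of `X² + X + 1`. -/
def redHom {A : Type*} [CommRing A] (r : A) (hr : r ^ 2 + r + 1 = 0) : R →+* A where
  toFun x := (x.re : A) + (x.im : A) * r
  map_zero' := by simp
  map_one' := by simp
  map_add' x y := by
    simp only [re_add, im_add]
    push_cast
    ring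
  map_mul' x y := by
    simp only [re_mul, im_mul]
    push_cast
    linear_combination (-(x.im : A) * y.im) * hr

theorem redHom_apply {A : Type*} [CommRing A] (r : A) (hr : r ^ 2 + r + 1 = 0) (x : R) :
    redHom r hr x = (x.re : A) + (x.im : A) * r := rfl

@[simp] theorem redHom_w {A : Type*} [CommRing A] (r : A) (hr : r ^ 2 + r + 1 = 0) :
    redHom r hr w = r := by
  rw [redHom_apply]; simp

theorem root_cube {A : Type*} [CommRing A] {r : A} (hr : r ^ 2 + r + 1 = 0) : r ^ 3 = 1 := by
  linear_combination (r - 1) * hr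

theorem root_primitive {A : Type*} [CommRing A] [IsDomain A] {r : A} (hr : r ^ 2 + r + 1 = 0)
    (h3 : (3 : A) ≠ 0) : IsPrimitiveRoot r 3 := by
  have h1 : r ≠ 1 := by
    rintro rfl
    apply h3
    linear_combination hr
  exact IsPrimitiveRoot.mk_of_lt r (by norm_num) (root_cube hr) (by
    intro l hl hl3
    interval_cases l
    · simpa using h1
    · intro h2
      apply h1
      have : r = -2 := by linear_combination hr - h2
      have h4 : (3 : A) = 0 := by
        rw [this] at h2
        linear_combination h2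
      exact absurd h4 h3)

theorem w_primitive : IsPrimitiveRoot w 3 := root_primitive w_poly (by
  intro h
  have := congrArg QuadraticAlgebra.re h
  simp at this)

/-- Reduction modulo a prime of norm `p`. -/
theorem exists_root (g : R) (p : ℕ) [hp : Fact p.Prime] (hg : N g = p) :
    ∃ r : ZMod p, r ^ 2 + r + 1 = 0 ∧ (g.re : ZMod p) + g.im * r = 0 := by
  have hp' : Prime (p : ℤ) := Nat.prime_iff_prime_int.1 hp.out
  have him : (g.im : ZMod p) ≠ 0 := by
    intro h0
    rw [ZMod.intCast_zmod_eq_zero_iff_dvd] at h0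
    rw [N_def] at hg
    have h1 : (p : ℤ) ∣ g.re ^ 2 := by
      have : g.re ^ 2 = p + g.im * (g.re - g.im) := by rw [← hg]; ring
      rw [this]
      exact dvd_add dvd_rfl (h0.mul_right _)
    have h2 : (p : ℤ) ∣ g.re := hp'.dvd_of_dvd_pow h1
    obtain ⟨a, ha⟩ := h2
    obtain ⟨b, hb⟩ := h0
    rw [ha, hb] at hg
    have h3 : (p : ℤ) * (a ^ 2 - a * b + b ^ 2) = 1 := by
      have : (p : ℤ) * ((p : ℤ) * (a ^ 2 - a * b + b ^ 2)) = p * 1 := by
        rw [mul_one]
        nth_rewrite 3 [← hg]
        ring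
      exact mul_left_cancel₀ hp'.ne_zero this
    exact hp'.not_isUnit (IsUnit.of_mul_eq_one _ h3)
  refine ⟨-g.re / g.im, ?_, ?_⟩
  · have h1 : ((g.re ^ 2 - g.re * g.im + g.im ^ 2 : ℤ) : ZMod p) = 0 := by
      rw [← N_def, hg]
      simp
    push_cast at h1
    field_simp
    linear_combination h1
  · field_simp
    ring

theorem redHom_zero_iff {A : Type*} [CommRing A] [Nontrivial A] (g : R) (hg : Prime g) (r : A)
    (hr : r ^ 2 + r + 1 = 0) (h0 : (g.re : A) + g.im * r = 0) (x : R) :
    redHom r hr x = 0 ↔ g ∣ x := by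
  constructor
  · intro hx
    by_contra hd
    obtain ⟨a, b, hab⟩ := (hg.irreducible.coprime_iff_not_dvd).2 hd
    have h1 := congrArg (redHom r hr) hab
    rw [map_add, map_mul, map_mul, map_one, hx, redHom_apply r hr g, h0, mul_zero, mul_zero,
      add_zero] at h1
    exact zero_ne_one h1
  · rintro ⟨y, rfl⟩
    rw [map_mul, redHom_apply r hr g, h0, zero_mul]

section Cubic

variable (p : ℕ) [hp : Fact p.Prime] (h3 : p % 3 = 1)

/-- The cubic residue power. -/
def cr (x : ZMod p) : ZMod p := x ^ ((p - 1) / 3)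

theorem cr_mul (x y : ZMod p) : cr p (x * y) = cr p x * cr p y := mul_pow _ _ _

theorem cr_pow (x : ZMod p) (n : ℕ) : cr p (x ^ n) = cr p x ^ n := by
  unfold cr
  rw [← pow_mul, ← pow_mul, mul_comm]

theorem cr_one : cr p 1 = 1 := one_pow _

include h3

theorem cr_cube (x : ZMod p) (hx : x ≠ 0) : cr p x ^ 3 = 1 := by
  unfold cr
  rw [← pow_mul]
  have : (p - 1) / 3 * 3 = p - 1 := by omega
  rw [this]
  exact ZMod.pow_card_sub_one_eq_one hx

theorem cr_cube' (x : ZMod p) (hx : x ≠ 0) : cr p (x ^ 3) = 1 := by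
  rw [cr_pow, cr_cube p h3 x hx]

theorem cr_neg (x : ZMod p) : cr p (-x) = cr p x := by
  have : Even ((p - 1) / 3) := by
    have h2 := hp.out.eq_two_or_odd
    have : p ≠ 2 := by rintro rfl; omega
    rw [Nat.even_iff]
    omega
  unfold cr
  exact this.neg_pow x

theorem cr_zero : cr p 0 = 0 := by
  unfold cr
  have := hp.out.two_le
  exact zero_pow (by omega)

theorem three_ne : (3 : ZMod p) ≠ 0 := by
  intro h
  have h1 : ((3 : ℕ) : ZMod p) = 0 := by exact_mod_cast h
  rw [ZMod.natCast_eq_zero_iff] at h1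
  have := (Nat.prime_dvd_prime_iff_eq hp.out Nat.prime_three).1 h1
  omega

theorem cr_root (x : ZMod p) (hx : x ≠ 0) (r : ZMod p) (hr : r ^ 2 + r + 1 = 0) :
    ∃ s : ℕ, s < 3 ∧ cr p x = r ^ s := by
  have h1 := cr_cube p h3 x hx
  obtain ⟨i, hi, h⟩ := (root_primitive hr (three_ne p h3)).eq_pow_of_pow_eq_one h1
  exact ⟨i, hi, h.symm⟩

end Cubic

/-- Powers of a cube root of unity with integer exponents. -/
def rp {A : Type*} [CommRing A] (r : A) (z : ℤ) : A := r ^ (z % 3).toNat

theorem rp_nat {A : Type*} [CommRing A] {r : A} (hr : r ^ 2 + r + 1 = 0) (n : ℕ) :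
    r ^ n = rp r n := by
  unfold rp
  have h : ((n : ℤ) % 3).toNat = n % 3 := by omega
  rw [h]
  conv_lhs => rw [← Nat.div_add_mod n 3]
  rw [pow_add, pow_mul, root_cube hr, one_pow, one_mul]

theorem rp_congr {A : Type*} [CommRing A] (r : A) {y z : ℤ} (h : y % 3 = z % 3) :
    rp r y = rp r z := by
  unfold rp
  rw [h]

theorem rp_add {A : Type*} [CommRing A] {r : A} (hr : r ^ 2 + r + 1 = 0) (y z : ℤ) :
    rp r (y + z) = rp r y * rp r z := by
  unfold rp
  rw [← pow_add, rp_nat hr, rp_nat hr]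
  apply rp_congr
  omega

theorem rp_inj {A : Type*} [CommRing A] [IsDomain A] {r : A} (hr : r ^ 2 + r + 1 = 0)
    (h3 : (3 : A) ≠ 0) {y z : ℤ} (h : rp r y = rp r z) : y % 3 = z % 3 := by
  unfold rp at h
  have := (root_primitive hr h3).pow_inj (by omega) (by omega) h
  omega

theorem rp_mul {A : Type*} [CommRing A] {r : A} (hr : r ^ 2 + r + 1 = 0) (y : ℤ) (n : ℕ) :
    rp r y ^ n = rp r (n * y) := by
  induction n with
  | zero => simp [rp]
  | succ n ih =>
    rw [pow_succ, ih, ← rp_add hr]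
    congr 1
    push_cast
    ring

end Pool.Agent.H42.Cub
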