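import Mathlib
import Pool.Agent.Lib.H60.UDef.Defs

/-!
# The curves `y² = x³ + k` and cyclic cubic extensions (helper42)
-/

set_option autoImplicit false
set_option linter.unusedSectionVars false

open WeierstrassCurve WeierstrassCurve.Affine Pool.Agent.H60.UDef

namespace Pool.Agent.H42.Cub

section omega

variable {L : Type*} [Field L] [DecidableEq L] (W : WeierstrassCurve L) (h1 : W.a₁ = 0)
  (h2 : W.a₂ = 0) (h3 : W.a₃ = 0) (h4 : W.a₄ = 0) (z : L) (hz : z ^ 2 + z + 1 = 0)

include h1 h3 in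
theorem negY_j0 (x y : L) : W.toAffine.negY x y = -y := by
  rw [negY, h1, h3]; ring

include hz in
theorem zcube : z ^ 3 = 1 := by linear_combination (z - 1) * hz

include hz in
theorem zne : z ≠ 0 := by
  rintro rfl
  simp at hz

include h1 h2 h3 h4 hz in
theorem nonsingular_omega {x y : L} (h : W.toAffine.Nonsingular x y) :
    W.toAffine.Nonsingular (z * x) y := by
  rw [nonsingular_iff', equation_iff] at h ⊢
  rw [h1, h2, h3, h4] at h ⊢
  have hc := zcube z hz
  refine ⟨by linear_combination h.1 + (-x ^ 3) * hc, ?_⟩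
  rcases h.2 with h | h
  · left
    intro h0
    apply h
    have h5 : z * (z * (0 * y - (3 * x ^ 2 + 2 * 0 * x + 0))) = 0 := by
      linear_combination h0
    rcases mul_eq_zero.1 h5 with h6 | h6
    · exact absurd h6 (zne z hz)
    · exact (mul_eq_zero.1 h6).resolve_left (zne z hz)
  · right
    intro h0
    apply h
    linear_combination h0

include h1 h2 h3 h4 hz in
theorem slope_omega (x₁ x₂ y₁ y₂ : L) :
    W.toAffine.slope (z * x₁) (z * x₂) y₁ y₂ = z ^ 2 * W.toAffine.slope x₁ x₂ y₁ y₂ := by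
  have hc := zcube z hz
  have h0 := zne z hz
  unfold WeierstrassCurve.Affine.slope
  rw [negY_j0 W h1 h3, negY_j0 W h1 h3, negY_j0 W h1 h3, negY_j0 W h1 h3, h1, h2, h4]
  by_cases hx : x₁ = x₂
  · rw [if_pos hx, if_pos (by rw [hx])]
    by_cases hy : y₁ = -y₂
    · rw [if_pos hy, if_pos hy, mul_zero]
    · rw [if_neg hy, if_neg hy]
      ring
  · rw [if_neg hx, if_neg (fun h => hx (mul_left_cancel₀ h0 h))]
    have h5 : x₁ - x₂ ≠ 0 := sub_ne_zero.2 hx
    have h6 : z * x₁ - z * x₂ ≠ 0 := by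
      rw [← mul_sub]; exact mul_ne_zero h0 h5
    rw [div_eq_iff h6]
    field_simp
    linear_combination (-(y₁ - y₂)) * hc

/-- Multiplication by the cube root of unity on a curve of `j`-invariant zero. -/
noncomputable def om : W.toAffine.Point →+ W.toAffine.Point where
  toFun P := match P with
    | 0 => 0
    | .some _ _ h => .some _ _ (nonsingular_omega W h1 h2 h3 h4 z hz h)
  map_zero' := rfl
  map_add' := by
    rintro (_ | ⟨x₁, y₁, k₁⟩) (_ | ⟨x₂, y₂, k₂⟩)
    any_goals rfl
    have hc := zcube z hz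
    by_cases hxy : x₁ = x₂ ∧ y₁ = W.toAffine.negY x₂ y₂
    · rw [Point.add_of_Y_eq hxy.left hxy.right,
        Point.add_of_Y_eq (congr_arg _ hxy.left) (by
          rw [hxy.right, negY_j0 W h1 h3, negY_j0 W h1 h3])]
    · have hxy' : ¬ (z * x₁ = z * x₂ ∧ y₁ = W.toAffine.negY (z * x₂) y₂) := by
        rintro ⟨e1, e2⟩
        apply hxy
        rw [negY_j0 W h1 h3] at e2 ⊢
        exact ⟨mul_left_cancel₀ (zne z hz) e1, e2⟩
      rw [Point.add_some hxy, Point.add_some hxy']
      change Point.some _ _ _ = Point.some _ _ _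
      rw [Point.some.injEq, slope_omega W h1 h2 h3 h4 z hz]
      refine ⟨?_, ?_⟩
      · rw [addX, addX, h1, h2]
        linear_combination (-z * W.toAffine.slope x₁ x₂ y₁ y₂ ^ 2) * hc
      · rw [addY, addY, negY_j0 W h1 h3, negY_j0 W h1 h3, negAddY, negAddY, addX, addX, h1, h2]
        have hc4 : z ^ 6 = 1 := by rw [show 6 = 3 * 2 by norm_num, pow_mul, hc, one_pow]
        linear_combination (W.toAffine.slope x₁ x₂ y₁ y₂ ^ 3) * hc4 -
          (W.toAffine.slope x₁ x₂ y₁ y₂ * (2 * x₁ + x₂)) * hc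

theorem om_some {x y : L} (h : W.toAffine.Nonsingular x y) :
    om W h1 h2 h3 h4 z hz (.some x y h) = .some _ _ (nonsingular_omega W h1 h2 h3 h4 z hz h) := rfl

include h1 h2 h3 h4 hz in
theorem triple (x y : L) (hx : x = 0) (h2' : (2 : L) ≠ 0) (hy : y ≠ 0)
    (h : W.toAffine.Nonsingular x y) :
    (Point.some x y h + Point.some x y h + Point.some x y h : W.toAffine.Point) = 0 := by
  have hyn : y ≠ W.toAffine.negY x y := by
    rw [negY_j0 W h1 h3]
    intro h0
    have : 2 * y = 0 := by linear_combination h0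
    exact (mul_ne_zero h2' hy) this
  rw [Point.add_self_of_Y_ne hyn]
  refine Point.add_of_Y_eq ?_ ?_
  · rw [slope_of_Y_ne rfl hyn, negY_j0 W h1 h3, addX, h1, h2, h4, hx]
    simp
  · rw [slope_of_Y_ne rfl hyn, addY, negY_j0 W h1 h3, negY_j0 W h1 h3, negAddY, addX, h1, h2, h4, hx]
    simp

theorem om_sum (h2' : (2 : L) ≠ 0) (h3' : (3 : L) ≠ 0) (h6 : W.a₆ ≠ 0) (P : W.toAffine.Point) :
    P + om W h1 h2 h3 h4 z hz P + om W h1 h2 h3 h4 z hz (om W h1 h2 h3 h4 z hz P) = 0 := by
  have hc := zcube z hz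
  rcases P with _ | ⟨x, y, h⟩
  · rfl
  · rw [om_some, om_some]
    by_cases hx : x = 0
    · have hy : y ≠ 0 := by
        rintro rfl
        have := h.1
        rw [equation_iff, h1, h2, h3, h4, hx] at this
        apply h6
        linear_combination -this
      have e1 : (Point.some (z * x) y (nonsingular_omega W h1 h2 h3 h4 z hz h) :
          W.toAffine.Point) = Point.some x y h := by
        rw [Point.some.injEq]; exact ⟨by rw [hx, mul_zero], rfl⟩
      have e2 : (Point.some (z * (z * x)) y (nonsingular_omega W h1 h2 h3 h4 z hz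
          (nonsingular_omega W h1 h2 h3 h4 z hz h)) : W.toAffine.Point) = Point.some x y h := by
        rw [Point.some.injEq]; exact ⟨by rw [hx, mul_zero, mul_zero], rfl⟩
      rw [e1, e2]
      exact triple W h1 h2 h3 h4 z hz x y hx h2' hy h
    · have hne : x ≠ z * x := by
        intro h0
        have h5 : (1 - z) * x = 0 := by linear_combination h0
        rcases mul_eq_zero.1 h5 with h6' | h6'
        · have hz1 : z = 1 := by linear_combination -h6'
          apply h3'
          rw [hz1] at hz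
          linear_combination hz
        · exact hx h6'
      rw [Point.add_of_X_ne hne]
      refine Point.add_of_Y_eq ?_ ?_
      · rw [slope_of_X_ne hne, sub_self, zero_div, addX, h1, h2]
        linear_combination (-x) * hz
      · rw [slope_of_X_ne hne, sub_self, zero_div, addY, negY_j0 W h1 h3, negY_j0 W h1 h3, negAddY]
        ring

end omega

section cyclic

variable {F L : Type} [Field F] [Field L] [CharZero F] [Algebra F L] (zF : F)
  (hzF : zF ^ 2 + zF + 1 = 0) (θ : L) (α : F) (hα : α ≠ 0) (hθ : θ ^ 3 = algebraMap F L α)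
  (hrep : ∀ x : L, ∃ a b c : F, x = algebraMap F L a + algebraMap F L b * θ +
    algebraMap F L c * θ ^ 2)
  (hli : ∀ a b c : F, algebraMap F L a + algebraMap F L b * θ + algebraMap F L c * θ ^ 2 = 0 →
    a = 0 ∧ b = 0 ∧ c = 0)
  (σ : L →ₐ[F] L) (hσ : σ θ = algebraMap F L zF * θ)

include hzF in
theorem zF_ne_one : zF ≠ 1 := by
  rintro rfl
  norm_num at hzF

include hσ in
theorem sigma_rep (a b c : F) : σ (algebraMap F L a + algebraMap F L b * θ +
    algebraMap F L c * θ ^ 2) = algebraMap F L a + algebraMap F L (zF * b) * θ +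
      algebraMap F L (zF ^ 2 * c) * θ ^ 2 := by
  simp only [map_add, map_mul, map_pow, AlgHom.commutes, hσ]
  ring

include hrep hσ hzF in
theorem sigma_cube (x : L) : σ (σ (σ x)) = x := by
  obtain ⟨a, b, c, rfl⟩ := hrep x
  rw [sigma_rep zF θ σ hσ, sigma_rep zF θ σ hσ, sigma_rep zF θ σ hσ]
  have hc : zF ^ 3 = 1 := by linear_combination (zF - 1) * hzF
  have e1 : zF * (zF * (zF * b)) = b := by linear_combination b * hc
  have e2 : zF ^ 2 * (zF ^ 2 * (zF ^ 2 * c)) = c := by linear_combination (zF ^ 3 + 1) * c * hc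
  rw [e1, e2]

include hrep hli hσ hzF in
theorem sigma_eigen (e : ℕ) (he : e < 3) (x : L) (hx : σ x = algebraMap F L (zF ^ e) * x) :
    ∃ u : F, x = algebraMap F L u * θ ^ e := by
  obtain ⟨a, b, c, rfl⟩ := hrep x
  rw [sigma_rep zF θ σ hσ] at hx
  have h1 := hli (a - zF ^ e * a) (zF * b - zF ^ e * b) (zF ^ 2 * c - zF ^ e * c) (by
    simp only [map_sub, map_mul, map_pow] at hx ⊢
    linear_combination hx)
  obtain ⟨ha, hb, hc⟩ := h1
  have hne := zF_ne_one zF hzF
  have hne' : 1 - zF ≠ 0 := sub_ne_zero.2 (Ne.symm hne)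
  have h3 : zF ^ 3 = 1 := by linear_combination (zF - 1) * hzF
  have key : ∀ t : F, (1 - zF) * t = 0 → t = 0 := fun t ht =>
    (mul_eq_zero.1 ht).resolve_left hne'
  interval_cases e
  · have hb' : b = 0 := key b (by linear_combination -hb)
    have hc' : c = 0 := key c (by linear_combination zF * hc - c * h3)
    exact ⟨a, by rw [hb', hc']; simp⟩
  · have ha' : a = 0 := key a (by linear_combination ha)
    have hc' : c = 0 := key c (by linear_combination (-zF ^ 2) * hc + (zF * c - c) * h3)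
    exact ⟨b, by rw [ha', hc']; simp⟩
  · have ha' : a = 0 := key a (by linear_combination (-zF) * ha - a * h3)
    have hb' : b = 0 := key b (by linear_combination zF ^ 2 * hb + (zF * b - b) * h3)
    exact ⟨c, by rw [ha', hb']; simp⟩

variable [DecidableEq F] [DecidableEq L]

/-- The equation after extending the base. -/
theorem eqn {K : Type} [Field K] [Algebra F K] (x y : K) :
    ((shortW (0 : F) (-34992))⁄K).Equation x y ↔ y ^ 2 = x ^ 3 - 34992 := by
  rw [equation_iff]
  have h : algebraMap F K 34992 = 34992 := map_ofNat _ 34992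
  simp [shortW, sub_eq_add_neg, h]

include hzF hα hθ hrep hli hσ in
/-- The rank does not grow in the cyclic cubic extension. -/
theorem nine_smul
    (N1 : ∀ X Y Z : F, X ^ 3 + Y ^ 3 = 9 * α * Z ^ 3 → Z = 0)
    (N2 : ∀ X Y Z : F, X ^ 3 + Y ^ 3 = 9 * α ^ 2 * Z ^ 3 → Z = 0)
    (P : ((shortW (0 : F) (-34992))⁄L).Point) :
    ∃ Q : ((shortW (0 : F) (-34992))⁄F).Point, 9 • P = Point.baseChange F L Q := by
  have hinj : Function.Injective (algebraMap F L) := (algebraMap F L).injective
  have _ : CharZero L := charZero_of_injective_algebraMap hinj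
  have hofNat : algebraMap F L 34992 = 34992 := map_ofNat _ 34992
  revert P
  set W : WeierstrassCurve L := (shortW (0 : F) (-34992))⁄L with hW
  intro P
  have h1 : W.a₁ = 0 := by rw [hW]; simp [shortW]
  have h2 : W.a₂ = 0 := by rw [hW]; simp [shortW]
  have h3 : W.a₃ = 0 := by rw [hW]; simp [shortW]
  have h4 : W.a₄ = 0 := by rw [hW]; simp [shortW]
  have h6 : W.a₆ = -34992 := by rw [hW]; simp [shortW, hofNat]
  set z : L := algebraMap F L zF with hzdef
  have hz : z ^ 2 + z + 1 = 0 := by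
    rw [hzdef, ← map_pow, ← map_one (algebraMap F L), ← map_add, ← map_add, hzF, map_zero]
  set o := om W h1 h2 h3 h4 z hz with ho
  let s : W.toAffine.Point →+ W.toAffine.Point := Point.map σ
  have hsum : ∀ Q, Q + o Q + o (o Q) = 0 := fun Q =>
    om_sum W h1 h2 h3 h4 z hz (by norm_num) (by norm_num) (by rw [h6]; norm_num) Q
  have hs_some : ∀ (x y : L) (h : W.toAffine.Nonsingular x y), ∃ h' : W.toAffine.Nonsingular (σ x)
      (σ y), s (.some x y h) = .some (σ x) (σ y) h' := fun x y h => ⟨_, rfl⟩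
  have ho_some : ∀ (x y : L) (h : W.toAffine.Nonsingular x y), ∃ h' : W.toAffine.Nonsingular (z * x)
      y, o (.some x y h) = .some (z * x) y h' := fun x y h => ⟨_, rfl⟩
  have hso : ∀ Q, s (o Q) = o (s Q) := by
    intro Q
    rcases Q with _ | ⟨x, y, h⟩
    · rfl
    · obtain ⟨k1, e1⟩ := ho_some x y h
      obtain ⟨k2, e2⟩ := hs_some _ _ k1
      obtain ⟨k3, e3⟩ := hs_some x y h
      obtain ⟨k4, e4⟩ := ho_some _ _ k3
      rw [e1, e2, e3, e4, Point.some.injEq]
      exact ⟨by rw [map_mul, hzdef, AlgHom.commutes], rfl⟩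
  have hs3 : ∀ Q, s (s (s Q)) = Q := by
    intro Q
    rcases Q with _ | ⟨x, y, h⟩
    · rfl
    · obtain ⟨k1, e1⟩ := hs_some x y h
      obtain ⟨k2, e2⟩ := hs_some _ _ k1
      obtain ⟨k3, e3⟩ := hs_some _ _ k2
      rw [e1, e2, e3, Point.some.injEq]
      exact ⟨sigma_cube zF hzF θ hrep σ hσ x, sigma_cube zF hzF θ hrep σ hσ y⟩
  have ho3 : ∀ Q, o (o (o Q)) = Q := by
    intro Q
    have e1 := hsum Q
    have e2 := hsum (o Q)
    have e3 : o (o (o Q)) = -(o Q + o (o Q)) := by
      rw [eq_neg_iff_add_eq_zero, add_comm]; exact e2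
    have e4 : Q = -(o Q + o (o Q)) := by
      rw [eq_neg_iff_add_eq_zero, ← add_assoc]; exact e1
    rw [e3, ← e4]
  -- the three components
  have hA : ∀ Q, s Q = Q → ∃ Q₀ : ((shortW (0 : F) (-34992))⁄F).Point,
      Q = Point.baseChange F L Q₀ := by
    intro Q hQ
    rcases Q with _ | ⟨x, y, h⟩
    · exact ⟨0, rfl⟩
    · obtain ⟨k1, e1⟩ := hs_some x y h
      rw [e1, Point.some.injEq] at hQ
      obtain ⟨u, hu⟩ := sigma_eigen zF hzF θ hrep hli σ hσ 0 (by norm_num) x (by simpa using hQ.1)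
      obtain ⟨v, hv⟩ := sigma_eigen zF hzF θ hrep hli σ hσ 0 (by norm_num) y (by simpa using hQ.2)
      rw [pow_zero, mul_one] at hu hv
      have hn : ((shortW (0 : F) (-34992))⁄F).Nonsingular u v := by
        rw [← WeierstrassCurve.Affine.baseChange_nonsingular (shortW (0 : F) (-34992))
          (f := Algebra.ofId F L) (Algebra.ofId F L).injective]
        have := h
        rw [hu, hv] at this
        exact this
      refine ⟨.some u v hn, ?_⟩
      change _ = Point.some _ _ _
      rw [Point.some.injEq]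
      exact ⟨hu, hv⟩
  have hB : ∀ (e : ℕ) (he : e = 1 ∨ e = 2) (x y : L) (h : W.toAffine.Nonsingular x y),
      σ x = algebraMap F L (zF ^ e) * x → σ y = y →
        (3 : ℕ) • (Point.some x y h : W.toAffine.Point) = 0 := by
    intro e he x y h hx hy
    obtain ⟨u, hu⟩ := sigma_eigen zF hzF θ hrep hli σ hσ e (by omega) x hx
    obtain ⟨v, hv⟩ := sigma_eigen zF hzF θ hrep hli σ hσ 0 (by norm_num) y (by simpa using hy)
    rw [pow_zero, mul_one] at hv
    have heq : y ^ 2 = x ^ 3 - 34992 := (eqn x y).1 h.1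
    have hF : v ^ 2 = u ^ 3 * α ^ e - 34992 := by
      apply hinj
      have e1 : (θ ^ e) ^ 3 = algebraMap F L (α ^ e) := by
        rw [← pow_mul, mul_comm, pow_mul, hθ, map_pow]
      rw [hu, hv, mul_pow, e1] at heq
      rw [map_sub, map_mul, map_pow, map_pow, heq, hofNat]
    have hu0 : u = 0 := by
      have h6u : 6 * u = 0 := by
        rcases he with rfl | rfl
        · refine N1 (324 + v) (324 - v) (6 * u) ?_
          linear_combination 1944 * hF
        · refine N2 (324 + v) (324 - v) (6 * u) ?_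
          linear_combination 1944 * hF
      exact (mul_eq_zero.1 h6u).resolve_left (by norm_num)
    have hx0 : x = 0 := by rw [hu, hu0, map_zero, zero_mul]
    have hy0 : y ≠ 0 := by
      rintro rfl
      rw [hx0] at heq
      norm_num at heq
    have := triple W h1 h2 h3 h4 z hz x y hx0 (by norm_num) hy0 h
    rw [show (3 : ℕ) = 2 + 1 by norm_num, add_nsmul, two_nsmul, one_nsmul]
    exact this
  have hB1 : ∀ Q, o (s Q) = Q → (3 : ℕ) • Q = 0 := by
    intro Q hQ
    rcases Q with _ | ⟨x, y, h⟩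
    · exact nsmul_zero 3
    · obtain ⟨k1, e1⟩ := hs_some x y h
      obtain ⟨k2, e2⟩ := ho_some _ _ k1
      rw [e1, e2, Point.some.injEq] at hQ
      refine hB 2 (Or.inr rfl) x y h ?_ hQ.2
      have hc := zcube z hz
      rw [map_pow, ← hzdef]
      linear_combination z ^ 2 * hQ.1 - σ x * hc
  have hB2 : ∀ Q, o (o (s Q)) = Q → (3 : ℕ) • Q = 0 := by
    intro Q hQ
    rcases Q with _ | ⟨x, y, h⟩
    · exact nsmul_zero 3
    · obtain ⟨k1, e1⟩ := hs_some x y h
      obtain ⟨k2, e2⟩ := ho_some _ _ k1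
      obtain ⟨k3, e3⟩ := ho_some _ _ k2
      rw [e1, e2, e3, Point.some.injEq] at hQ
      refine hB 1 (Or.inl rfl) x y h ?_ hQ.2
      have hc := zcube z hz
      rw [map_pow, ← hzdef]
      linear_combination z * hQ.1 - σ x * hc
  obtain ⟨Q₀, hQ₀⟩ := hA (P + s P + s (s P)) (by
    rw [map_add, map_add, hs3]; abel)
  have h31 := hB1 (P + o (s P) + o (o (s (s P)))) (by
    simp only [map_add, hso, hs3, ho3]; abel)
  have h32 := hB2 (P + o (o (s P)) + o (s (s P))) (by
    simp only [map_add, hso, hs3, ho3]; abel)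
  refine ⟨3 • Q₀, ?_⟩
  rw [map_nsmul, ← hQ₀]
  have e1 := hsum (s P)
  have e2 := hsum (s (s P))
  have h3P : (3 : ℕ) • P = (P + s P + s (s P)) + (P + o (s P) + o (o (s (s P)))) +
      (P + o (o (s P)) + o (s (s P))) := by
    have : (P + s P + s (s P)) + (P + o (s P) + o (o (s (s P)))) +
      (P + o (o (s P)) + o (s (s P))) = (3 : ℕ) • P + (s P + o (s P) + o (o (s P))) +
        (s (s P) + o (s (s P)) + o (o (s (s P)))) := by
      rw [show (3 : ℕ) = 2 + 1 by norm_num, add_nsmul, two_nsmul, one_nsmul]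
      abel
    rw [this, e1, e2, add_zero, add_zero]
  have h9 : (9 : ℕ) • P = (3 : ℕ) • ((3 : ℕ) • P) := by rw [← mul_nsmul]
  rw [h9, h3P, nsmul_add, nsmul_add, h31, h32, add_zero, add_zero]

end cyclic

end Pool.Agent.H42.Cub
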