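import Pool.Agent.Lib.H42.Cub.Eis

/-!
# Residues modulo 9 of Eisenstein integers and the finite check (helper42)
-/

set_option autoImplicit false

open QuadraticAlgebra

namespace Pool.Agent.H42.Cub

/-- Product of residues. -/
def mulN (a b : ℕ × ℕ) : ℕ × ℕ :=
  ((a.1 * b.1 + 8 * (a.2 * b.2)) % 9, (a.1 * b.2 + a.2 * b.1 + 8 * (a.2 * b.2)) % 9)

/-- Sum of residues. -/
def addN (a b : ℕ × ℕ) : ℕ × ℕ := ((a.1 + b.1) % 9, (a.2 + b.2) % 9)

/-- Conjugation of residues. -/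
def cjN (a : ℕ × ℕ) : ℕ × ℕ := ((a.1 + 8 * a.2) % 9, (8 * a.2) % 9)

/-- The residue modulo 9. -/
def rd (x : R) : ℕ × ℕ := ((x.re : ZMod 9).val, (x.im : ZMod 9).val)

theorem rd_fst_lt (x : R) : (rd x).1 < 9 := ZMod.val_lt (x.re : ZMod 9)
theorem rd_snd_lt (x : R) : (rd x).2 < 9 := ZMod.val_lt (x.im : ZMod 9)

theorem eight : (8 : ZMod 9) = -1 := by decide

theorem val_eq (a : ZMod 9) (n : ℕ) (h : a = (n : ZMod 9)) : a.val = n % 9 := by
  rw [h, ZMod.val_natCast]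

theorem rd_mul (x y : R) : rd (x * y) = mulN (rd x) (rd y) := by
  unfold rd mulN
  refine Prod.ext ?_ ?_
  · apply val_eq
    push_cast
    rw [re_mul, ZMod.natCast_zmod_val, ZMod.natCast_zmod_val, ZMod.natCast_zmod_val,
      ZMod.natCast_zmod_val, eight]
    push_cast
    ring
  · apply val_eq
    push_cast
    rw [im_mul, ZMod.natCast_zmod_val, ZMod.natCast_zmod_val, ZMod.natCast_zmod_val,
      ZMod.natCast_zmod_val, eight]
    push_cast
    ring

theorem rd_add (x y : R) : rd (x + y) = addN (rd x) (rd y) := by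
  unfold rd addN
  refine Prod.ext ?_ ?_
  · apply val_eq
    push_cast
    rw [re_add, ZMod.natCast_zmod_val, ZMod.natCast_zmod_val]
    push_cast
    ring
  · apply val_eq
    push_cast
    rw [im_add, ZMod.natCast_zmod_val, ZMod.natCast_zmod_val]
    push_cast
    ring

theorem rd_cj (x : R) : rd (cj x) = cjN (rd x) := by
  unfold rd cjN
  refine Prod.ext ?_ ?_
  · apply val_eq
    push_cast
    rw [cj_re, ZMod.natCast_zmod_val, ZMod.natCast_zmod_val, eight]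
    push_cast
    ring
  · apply val_eq
    push_cast
    rw [cj_im, ZMod.natCast_zmod_val, eight]
    push_cast
    ring

theorem rd_one : rd 1 = (1, 0) := by decide
theorem rd_zero : rd 0 = (0, 0) := by decide
theorem rd_w : rd w = (0, 1) := by decide
theorem rd_lam : rd lam = (1, 8) := by decide

/-- Powers of `w`. -/
def wN (n : ℕ) : ℕ × ℕ := if n = 0 then (1, 0) else if n = 1 then (0, 1) else (8, 8)

theorem rd_w_pow (n : ℕ) (hn : n < 3) : rd (w ^ n) = wN n := by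
  interval_cases n
  · rw [pow_zero, rd_one]; rfl
  · rw [pow_one, rd_w]; rfl
  · rw [pow_two, rd_mul, rd_w]; rfl

/-- Membership in a list of residues. -/
def memb (x : ℕ × ℕ) (l : List (ℕ × ℕ)) : Bool := l.any fun y => x.1 == y.1 && x.2 == y.2

theorem mem_of_memb {x : ℕ × ℕ} {l : List (ℕ × ℕ)} (h : memb x l = true) : x ∈ l := by
  unfold memb at h
  rw [List.any_eq_true] at h
  obtain ⟨y, hy, h⟩ := h
  simp only [Bool.and_eq_true, beq_iff_eq] at h
  have : x = y := Prod.ext h.1 h.2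
  rw [this]; exact hy

theorem cube_check : ∀ a < 9, ∀ b < 9, ((a + b) % 3 == 0 ||
    memb (mulN (mulN (a, b) (a, b)) (a, b)) [(1, 0), (8, 0)]) = true := by decide +kernel

theorem lam_cube_check : ∀ a < 9, ∀ b < 9,
    memb (mulN (1, 8) (mulN (mulN (a, b) (a, b)) (a, b))) [(1, 8), (8, 1), (0, 0)] = true := by
  decide +kernel

theorem rd_cube (x : R) (hx : ¬ lam ∣ x) : rd (x ^ 3) ∈ ([(1, 0), (8, 0)] : List (ℕ × ℕ)) := by
  have h : x ^ 3 = x * x * x := by ring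
  rw [h, rd_mul, rd_mul]
  have hc := cube_check (rd x).1 (rd_fst_lt x) (rd x).2 (rd_snd_lt x)
  rw [Bool.or_eq_true] at hc
  refine mem_of_memb (hc.resolve_left ?_)
  intro h3
  rw [beq_iff_eq] at h3
  apply hx
  rw [lam_dvd_iff]
  have h4 : (3 : ℤ) ∣ ((rd x).1 : ℤ) + (rd x).2 := by omega
  have h5 : ((rd x).1 : ℤ) = x.re % 9 := by
    change (((x.re : ZMod 9).val : ℕ) : ℤ) = _
    rw [ZMod.val_intCast]; rfl
  have h6 : ((rd x).2 : ℤ) = x.im % 9 := by
    change (((x.im : ZMod 9).val : ℕ) : ℤ) = _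
    rw [ZMod.val_intCast]; rfl
  rw [h5, h6] at h4
  omega

theorem rd_lam_cube (x : R) : rd (lam * x ^ 3) ∈
    ([(1, 8), (8, 1), (0, 0)] : List (ℕ × ℕ)) := by
  have h : x ^ 3 = x * x * x := by ring
  rw [h, rd_mul, rd_mul, rd_mul, rd_lam]
  exact mem_of_memb <| lam_cube_check (rd x).1 (rd_fst_lt x) (rd x).2 (rd_snd_lt x)

/-- The residue of a fixed factor (without `lam`). -/
def dN (a b : ℕ × ℕ) (i k j : ℕ) : ℕ × ℕ :=
  mulN (if j = i then mulN a a else (1, 0)) (if j = k then b else (1, 0))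

/-- Exponents of the cubic characters. -/
def E1 (o l g : ℕ) (k j n : ℕ) : ℕ :=
  n * o + (if j = 2 then o + l else 0) + (if j = k then g else 0)

/-- Exponents of the cubic characters. -/
def E2 (o l g : ℕ) (i j n : ℕ) : ℕ :=
  2 * (n * o) + (if j = 2 then l else 0) + (if j = i then 2 * g else 0)

/-- The relations between exponents. -/
def rel1 (o l g : ℕ) (i k n0 n1 n2 : ℕ) : Bool :=
  (i == 0 || i == 1 || E1 o l g k 0 n0 % 3 == E1 o l g k 1 n1 % 3) &&
  (i == 0 || i == 2 || E1 o l g k 0 n0 % 3 == E1 o l g k 2 n2 % 3) &&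
  (i == 1 || i == 2 || E1 o l g k 1 n1 % 3 == E1 o l g k 2 n2 % 3)

/-- The relations between exponents. -/
def rel2 (o l g : ℕ) (i k n0 n1 n2 : ℕ) : Bool :=
  (k == 0 || k == 1 || E2 o l g i 0 n0 % 3 == E2 o l g i 1 n1 % 3) &&
  (k == 0 || k == 2 || E2 o l g i 0 n0 % 3 == E2 o l g i 2 n2 % 3) &&
  (k == 1 || k == 2 || E2 o l g i 1 n1 % 3 == E2 o l g i 2 n2 % 3)

/-- The good classes: `(3 m - 1 + 3 n w) w^i0`. -/
def Good (m n i0 : ℕ) : Prop :=
  (i0 = 0 ∧ n ≠ 0 ∧ (m + n) % 3 ≠ 0) ∨ (i0 ≠ 0 ∧ ¬ (m = 0 ∧ n = 0))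

instance (m n i0 : ℕ) : Decidable (Good m n i0) := by unfold Good; infer_instance

/-- The residue of `(3 m - 1 + 3 n w) w^i0`. -/
def gN (m n i0 : ℕ) : ℕ × ℕ := mulN (wN i0) ((3 * m + 8) % 9, (3 * n) % 9)

/-- The sum of the three terms. -/
def sumN (a b : ℕ × ℕ) (i k n0 n1 n2 : ℕ) (s0 s1 s2 : ℕ × ℕ) : ℕ × ℕ :=
  addN (addN (mulN (dN a b i k 0) (mulN (wN n0) s0)) (mulN (dN a b i k 1) (mulN (wN n1) s1)))
    (mulN (dN a b i k 2) (mulN (wN n2) s2))

/-- The test for given residues. -/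
def okS (m n i0 i k n0 n1 n2 : ℕ) (s0 s1 s2 : ℕ × ℕ) : Bool :=
  !(memb (sumN (gN m n i0) (cjN (gN m n i0)) i k n0 n1 n2 s0 s1 s2) [(0, 0)]) ||
    [0, 1, 2].all fun g =>
      !(rel1 ((m + n) % 3) ((m + 2 * n) % 3) g i k n0 n1 n2) ||
      !(rel2 ((m + n) % 3) ((m + 2 * n) % 3) g i k n0 n1 n2)

/-- The test. -/
def okT (m n i0 i k n0 n1 n2 : ℕ) : Bool :=
  !(decide (Good m n i0)) || !((n0 + n1 + n2) % 3 == 1) || (i == 2 && k == 2 && n0 == n1) ||
    [(1, 0), (8, 0)].all fun s0 => [(1, 0), (8, 0)].all fun s1 =>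
      [(1, 8), (8, 1), (0, 0)].all fun s2 => okS m n i0 i k n0 n1 n2 s0 s1 s2

/-- A Boolean test for `0, 1, 2`. -/
def all3 (f : ℕ → Bool) : Bool := f 0 && (f 1 && f 2)

theorem all3_spec {f : ℕ → Bool} (h : all3 f = true) (m : ℕ) (hm : m < 3) : f m = true := by
  unfold all3 at h
  rw [Bool.and_eq_true, Bool.and_eq_true] at h
  interval_cases m
  · exact h.1
  · exact h.2.1
  · exact h.2.2

theorem okT_all : (all3 fun m => all3 fun n => all3 fun i0 => all3 fun i => all3 fun k =>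
    all3 fun n0 => all3 fun n1 => all3 fun n2 => okT m n i0 i k n0 n1 n2) = true := by
  decide +kernel

theorem dec (m n i0 i k n0 n1 n2 g : ℕ) (hm : m < 3) (hn : n < 3) (hi0 : i0 < 3)
    (hG : Good m n i0) (hi : i < 3) (hk : k < 3) (hn0 : n0 < 3) (hn1 : n1 < 3) (hn2 : n2 < 3)
    (hs : (n0 + n1 + n2) % 3 = 1) (s0 s1 s2 : ℕ × ℕ)
    (h0 : s0 ∈ ([(1, 0), (8, 0)] : List (ℕ × ℕ))) (h1 : s1 ∈ ([(1, 0), (8, 0)] : List (ℕ × ℕ)))
    (h2 : s2 ∈ ([(1, 8), (8, 1), (0, 0)] : List (ℕ × ℕ)))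
    (hS : sumN (gN m n i0) (cjN (gN m n i0)) i k n0 n1 n2 s0 s1 s2 = (0, 0)) (hg : g < 3)
    (r1 : rel1 ((m + n) % 3) ((m + 2 * n) % 3) g i k n0 n1 n2 = true)
    (r2 : rel2 ((m + n) % 3) ((m + 2 * n) % 3) g i k n0 n1 n2 = true) :
    i = 2 ∧ k = 2 ∧ n0 = n1 := by
  have h := all3_spec (all3_spec (all3_spec (all3_spec (all3_spec (all3_spec (all3_spec (all3_spec
    okT_all m hm) n hn) i0 hi0) i hi) k hk) n0 hn0) n1 hn1) n2 hn2
  unfold okT at h
  rw [Bool.or_eq_true, Bool.or_eq_true, Bool.or_eq_true] at h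
  rcases h with ((h | h) | h) | h
  · simp [hG] at h
  · simp [hs] at h
  · simp only [Bool.and_eq_true, beq_iff_eq] at h
    exact ⟨h.1.1, h.1.2, h.2⟩
  · exfalso
    rw [List.all_eq_true] at h
    have h := h s0 h0
    rw [List.all_eq_true] at h
    have h := h s1 h1
    rw [List.all_eq_true] at h
    have h := h s2 h2
    unfold okS at h
    rw [Bool.or_eq_true] at h
    rcases h with h | h
    · rw [hS] at h
      simp [memb] at h
    · rw [List.all_eq_true] at h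
      have h := h g (by interval_cases g <;> simp)
      rw [r1, r2] at h
      simp at h

end Pool.Agent.H42.Cub
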