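import Pool.Agent.Lib.H42.Cub.Recip

/-!
# The supplementary law of cubic reciprocity for the prime `1 - w` (helper42)
-/

set_option autoImplicit false

open QuadraticAlgebra Finset

namespace Pool.Agent.H42.Cub

section

variable (p : ℕ) [hp : Fact p.Prime]

theorem nat_sq_mod (A : ℕ) (h : ¬ 3 ∣ A) : A * A % 3 = 1 := by
  have : A % 3 = 1 ∨ A % 3 = 2 := by omega
  rw [Nat.mul_mod]
  rcases this with h | h <;> rw [h]

theorem cr_nat (r : ZMod p) (hr : r ^ 2 + r + 1 = 0) (t : ℤ) (A : ℕ)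
    (hA : ¬ 3 ∣ A) (H : ∀ q : ℕ, q.Prime → q ∣ A → cr p (q : ZMod p) =
      rp r (t * ((q * q - 1) / 3 : ℕ))) :
    cr p (A : ZMod p) = rp r (t * ((A * A - 1) / 3 : ℕ)) := by
  induction A using Nat.strong_induction_on with
  | _ A ih =>
    have hA0 : A ≠ 0 := by rintro rfl; exact hA (dvd_zero 3)
    by_cases h1 : A = 1
    · subst h1
      simp [cr_one, rp]
    · have hq : A.minFac.Prime := Nat.minFac_prime h1
      obtain ⟨B, hB⟩ := A.minFac_dvd
      set q := A.minFac
      have hB0 : B ≠ 0 := by rintro rfl; rw [mul_zero] at hB; exact hA0 hB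
      have hBA : B < A := by
        rw [hB]
        have := hq.two_le
        nlinarith [Nat.pos_of_ne_zero hB0]
      have hB3 : ¬ 3 ∣ B := fun h => hA (hB ▸ h.mul_left q)
      have hq3 : ¬ 3 ∣ q := fun h => hA (hB ▸ h.mul_right B)
      have e1 := ih B hBA hB3 (fun q' hq' hd => H q' hq' (hB ▸ hd.mul_left q))
      have e2 := H q hq (hB ▸ dvd_mul_right q B)
      have f1 := nat_sq_mod q hq3
      have f2 := nat_sq_mod B hB3
      obtain ⟨x, hx⟩ : ∃ x, q * q = 3 * x + 1 := ⟨q * q / 3, by omega⟩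
      obtain ⟨y, hy⟩ : ∃ y, B * B = 3 * y + 1 := ⟨B * B / 3, by omega⟩
      have g1 : (q * q - 1) / 3 = x := by omega
      have g2 : (B * B - 1) / 3 = y := by omega
      have g3 : (A * A - 1) / 3 = 3 * (x * y) + x + y := by
        have : A * A = 3 * (3 * (x * y) + x + y) + 1 := by
          rw [hB]
          calc q * B * (q * B) = (q * q) * (B * B) := by ring
            _ = 3 * (3 * (x * y) + x + y) + 1 := by rw [hx, hy]; ring
        omega
      have e3 : (A : ZMod p) = (q : ZMod p) * (B : ZMod p) := by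
        conv_lhs => rw [hB]
        push_cast
        rfl
      rw [e3, cr_mul, e1, e2, g1, g2, g3, ← rp_add hr]
      apply rp_congr
      push_cast
      have : t * (3 * ((x : ℤ) * y) + x + y) = t * x + t * y + 3 * (t * (x * y)) := by ring
      rw [this]
      omega

theorem cr_int (h3 : p % 3 = 1) (a : ℤ) : cr p (a : ZMod p) = cr p (a.natAbs : ZMod p) := by
  obtain ⟨n, rfl | rfl⟩ := Int.eq_nat_or_neg a
  · rw [Int.natAbs_natCast, Int.cast_natCast]
  · rw [Int.natAbs_neg, Int.natAbs_natCast, Int.cast_neg, Int.cast_natCast, cr_neg p h3]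

theorem natAbs_exp (a k : ℤ) (h : a * a = 3 * k + 1) :
    ((((a.natAbs * a.natAbs - 1) / 3 : ℕ)) : ℤ) = k := by
  have h1 : ((a.natAbs * a.natAbs : ℕ) : ℤ) = 3 * k + 1 := by
    rw [← h]
    push_cast
    rw [← abs_mul_abs_self a]
  omega

/-- The supplementary law. -/
theorem supp (m n : ℤ) (hN : N ⟨3 * m - 1, 3 * n⟩ = p) (r : ZMod p) (hr : r ^ 2 + r + 1 = 0)
    (h0 : ((3 * m - 1 : ℤ) : ZMod p) + (3 * n : ℤ) * r = 0) :
    cr p r = rp r (m + n) ∧ cr p (1 - r) = rp r (2 * m) := by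
  have hNN : (p : ℤ) = (3 * m - 1) ^ 2 - (3 * m - 1) * (3 * n) + (3 * n) ^ 2 := by
    rw [← hN, N_def]
  have hpm : (p : ℤ) = 3 * (3 * m ^ 2 - 2 * m - 3 * m * n + n + 3 * n ^ 2) + 1 := by
    rw [hNN]; ring
  have h3 : p % 3 = 1 := by omega
  have h3' := three_ne p h3
  have c1 : cr p r = rp r (m + n) := by
    unfold cr
    rw [rp_nat hr]
    apply rp_congr
    have e : (((p - 1) / 3 : ℕ) : ℤ) = 3 * m ^ 2 - 2 * m - 3 * m * n + n + 3 * n ^ 2 := by omega
    rw [e]
    have : 3 * m ^ 2 - 2 * m - 3 * m * n + n + 3 * n ^ 2 =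
      (m + n) + 3 * (m ^ 2 - m - m * n + n ^ 2) := by ring
    rw [this]
    omega
  refine ⟨c1, ?_⟩
  have c2 : cr p ((3 * m - 1 : ℤ) : ZMod p) = rp r m := by
    rw [cr_int p h3, cr_nat p r hr 1 (3 * m - 1).natAbs (by omega), natAbs_exp (3 * m - 1)
      (3 * m ^ 2 - 2 * m) (by ring)]
    · apply rp_congr
      have : 1 * (3 * m ^ 2 - 2 * m) = m + 3 * (m ^ 2 - m) := by ring
      rw [this]
      omega
    · intro q hq hd
      have : Fact q.Prime := ⟨hq⟩
      exact rule_a p q m n hN r hr h0 (Int.natCast_dvd.2 hd)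
  have c3 : cr p ((3 * (m + n) - 1 : ℤ) : ZMod p) = rp r (2 * (m + n)) := by
    rw [cr_int p h3, cr_nat p r hr 2 (3 * (m + n) - 1).natAbs (by omega),
      natAbs_exp (3 * (m + n) - 1) (3 * (m + n) ^ 2 - 2 * (m + n)) (by ring)]
    · apply rp_congr
      have : 2 * (3 * (m + n) ^ 2 - 2 * (m + n)) = 2 * (m + n) + 3 * (2 * (m + n) ^ 2 -
        2 * (m + n)) := by ring
      rw [this]
      omega
    · intro q hq hd
      have : Fact q.Prime := ⟨hq⟩
      exact rule_ab p q m n hN r hr h0 (Int.natCast_dvd.2 hd)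
  have c4 : ((3 * (m + n) - 1 : ℤ) : ZMod p) * r = -(((3 * m - 1 : ℤ) : ZMod p) * (1 - r)) := by
    push_cast at h0 ⊢
    linear_combination h0
  have c5 := congrArg (cr p) c4
  rw [cr_neg p h3, cr_mul, cr_mul, c1, c2, c3, ← rp_add hr] at c5
  have c6 : rp r (-m) * (rp r m * cr p (1 - r)) = cr p (1 - r) := by
    rw [← mul_assoc, ← rp_add hr]
    have : rp r (-m + m) = 1 := by
      have : -m + m = 0 := by ring
      rw [this]; simp [rp]
    rw [this, one_mul]
  rw [← c6, ← c5, ← rp_add hr]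
  apply rp_congr
  omega

end

end Pool.Agent.H42.Cub
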