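import Pool.Agent.Lib.H42.Cub.Slots
import Pool.Agent.Lib.H42.Cub.Mod9
import Pool.Agent.Lib.H42.Cub.Supp

/-!
# The descent for `X³ + Y³ = w lam g² h Z³` (helper42)
-/

set_option autoImplicit false

open QuadraticAlgebra Finset

namespace Pool.Agent.H42.Cub

theorem rel1_of (o l g : ℕ) (i k : Fin 3) (n : Fin 3 → ℕ)
    (H : ∀ j j' : Fin 3, j ≠ i → j' ≠ i → j ≠ j' →
      E1 o l g k j (n j) % 3 = E1 o l g k j' (n j') % 3) :
    rel1 o l g i k (n 0) (n 1) (n 2) = true := by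
  unfold rel1
  simp only [Bool.and_eq_true, Bool.or_eq_true, beq_iff_eq]
  refine ⟨⟨?_, ?_⟩, ?_⟩
  · by_cases h0 : i = 0
    · left; left; rw [h0]; rfl
    by_cases h1 : i = 1
    · left; right; rw [h1]; rfl
    right
    exact H 0 1 (Ne.symm h0) (Ne.symm h1) (by decide)
  · by_cases h0 : i = 0
    · left; left; rw [h0]; rfl
    by_cases h1 : i = 2
    · left; right; rw [h1]; rfl
    right
    exact H 0 2 (Ne.symm h0) (Ne.symm h1) (by decide)
  · by_cases h0 : i = 1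
    · left; left; rw [h0]; rfl
    by_cases h1 : i = 2
    · left; right; rw [h1]; rfl
    right
    exact H 1 2 (Ne.symm h0) (Ne.symm h1) (by decide)

theorem rel2_of (o l g : ℕ) (i k : Fin 3) (n : Fin 3 → ℕ)
    (H : ∀ j j' : Fin 3, j ≠ k → j' ≠ k → j ≠ j' →
      E2 o l g i j (n j) % 3 = E2 o l g i j' (n j') % 3) :
    rel2 o l g i k (n 0) (n 1) (n 2) = true := by
  unfold rel2
  simp only [Bool.and_eq_true, Bool.or_eq_true, beq_iff_eq]
  refine ⟨⟨?_, ?_⟩, ?_⟩
  · by_cases h0 : k = 0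
    · left; left; rw [h0]; rfl
    by_cases h1 : k = 1
    · left; right; rw [h1]; rfl
    right
    exact H 0 1 (Ne.symm h0) (Ne.symm h1) (by decide)
  · by_cases h0 : k = 0
    · left; left; rw [h0]; rfl
    by_cases h1 : k = 2
    · left; right; rw [h1]; rfl
    right
    exact H 0 2 (Ne.symm h0) (Ne.symm h1) (by decide)
  · by_cases h0 : k = 1
    · left; left; rw [h0]; rfl
    by_cases h1 : k = 2
    · left; right; rw [h1]; rfl
    right
    exact H 1 2 (Ne.symm h0) (Ne.symm h1) (by decide)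

theorem sum_pair_zero (f : Fin 3 → R) {A : Type*} [CommRing A] (ψ : R →+* A) (hs : ∑ j, f j = 0)
    (i j j' : Fin 3) (hi : ψ (f i) = 0) (h1 : j ≠ i) (h2 : j' ≠ i) (h3 : j ≠ j') :
    ψ (f j) = -ψ (f j') := by
  have h := congrArg ψ hs
  rw [map_sum, map_zero, Fin.sum_univ_three] at h
  have key : ∀ a b c : A, a + b + c = 0 → True := fun _ _ _ _ => trivial
  fin_cases i <;> fin_cases j <;> fin_cases j' <;> simp at h1 h2 h3 hi ⊢ <;>
    first
      | (rw [hi] at h; linear_combination h)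

theorem rd_primary (m n : ℤ) : rd ⟨3 * m - 1, 3 * n⟩ =
    ((3 * (m % 3).toNat + 8) % 9, (3 * (n % 3).toNat) % 9) := by
  unfold rd
  refine Prod.ext ?_ ?_
  · apply val_eq
    have h : ((3 * m - 1 : ℤ) : ZMod 9) = (((3 * (m % 3).toNat + 8 : ℕ) : ℤ) : ZMod 9) := by
      rw [ZMod.intCast_eq_intCast_iff]
      unfold Int.ModEq
      push_cast
      omega
    rw [h, Int.cast_natCast]
  · apply val_eq
    have h : ((3 * n : ℤ) : ZMod 9) = (((3 * (n % 3).toNat : ℕ) : ℤ) : ZMod 9) := by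
      rw [ZMod.intCast_eq_intCast_iff]
      unfold Int.ModEq
      push_cast
      omega
    rw [h, Int.cast_natCast]

theorem rd_ite (P : Prop) [Decidable P] (x : R) :
    rd (if P then x else 1) = if P then rd x else (1, 0) := by
  split_ifs
  · rfl
  · exact rd_one

theorem rd_slot (g h : R) (i k j : Fin 3) (nn : ℕ) (hnn : nn < 3) (y : R) :
    rd (((if j = i then g ^ 2 else 1) * (if j = k then h else 1)) * (w ^ nn * y)) =
      mulN (dN (rd g) (rd h) i k j) (mulN (wN nn) (rd y)) := by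
  rw [rd_mul, rd_mul, rd_mul, rd_ite, rd_ite, rd_w_pow nn hnn, pow_two, rd_mul]
  unfold dN
  simp only [Fin.ext_iff]

section

variable (p : ℕ) [hp : Fact p.Prime] (m n : ℤ) (hN : N ⟨3 * m - 1, 3 * n⟩ = p)

/-- Reduction modulo the conjugate prime. -/
def redC {A : Type*} [CommRing A] (r : A) (hr : r ^ 2 + r + 1 = 0) : R →+* A :=
  (redHom r hr).comp cj

theorem redC_apply {A : Type*} [CommRing A] (r : A) (hr : r ^ 2 + r + 1 = 0) (x : R) :
    redC r hr x = redHom r hr (cj x) := rfl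

omit hp in
include hN in
theorem p_mod : p % 3 = 1 := by
  rw [N_def] at hN
  simp only at hN
  have : (p : ℤ) = 3 * (3 * m ^ 2 - 2 * m - 3 * m * n + n + 3 * n ^ 2) + 1 := by
    rw [← hN]; ring
  omega

theorem cr_E1 (h3 : p % 3 = 1) (r : ZMod p) (hr : r ^ 2 + r + 1 = 0) (o l G : ℕ)
    (ho : cr p r = rp r o) (hl : cr p (1 - r) = rp r (o + l)) (g h : R)
    (hG : cr p (redHom r hr h) = rp r G) (i k j : Fin 3) (hji : j ≠ i) (nn : ℕ) (x : R)
    (hx : redHom r hr x ≠ 0) :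
    cr p (redHom r hr (D g h i k j * (w ^ nn * x ^ 3))) = rp r (E1 o l G k j nn) := by
  unfold D E1
  rw [if_neg hji, mul_one, map_mul, map_mul, map_mul, map_pow, map_pow, redHom_w, cr_mul, cr_mul,
    cr_mul, cr_pow, cr_cube' p h3 _ hx, ho, rp_mul hr, mul_one]
  push_cast
  rw [rp_add hr, rp_add hr]
  have e1 : cr p (redHom r hr (if j = 2 then lam else 1)) =
      rp r (if (j : ℕ) = 2 then (o : ℤ) + l else 0) := by
    by_cases hj : j = 2
    · rw [if_pos hj, if_pos (by rw [hj]; rfl), lam_eq, map_sub, map_one, redHom_w, hl]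
    · rw [if_neg hj, if_neg (fun h : (j : ℕ) = 2 => hj (Fin.ext h)), map_one, cr_one]
      simp [rp]
  have e2 : cr p (redHom r hr (if j = k then h else 1)) =
      rp r (if (j : ℕ) = k then (G : ℤ) else 0) := by
    by_cases hj : j = k
    · rw [if_pos hj, if_pos (by rw [hj]), hG]
    · rw [if_neg hj, if_neg (fun h => hj (Fin.ext h)), map_one, cr_one]
      simp [rp]
  rw [e1, e2]
  ring

theorem cr_E2 (h3 : p % 3 = 1) (r : ZMod p) (hr : r ^ 2 + r + 1 = 0) (o l G : ℕ)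
    (ho : cr p r = rp r o) (hl : cr p (1 - r ^ 2) = rp r l) (g h : R)
    (hG : cr p (redC r hr g) = rp r G) (i k j : Fin 3) (hjk : j ≠ k) (nn : ℕ) (x : R)
    (hx : redC r hr x ≠ 0) :
    cr p (redC r hr (D g h i k j * (w ^ nn * x ^ 3))) = rp r (E2 o l G i j nn) := by
  unfold D E2
  have ew : redC r hr w = r ^ 2 := by
    rw [redC_apply, cj_w, map_pow, redHom_w]
  rw [if_neg hjk, mul_one, map_mul, map_mul, map_mul, map_pow, map_pow, ew, cr_mul, cr_mul,
    cr_mul, cr_pow, cr_cube' p h3 _ hx, cr_pow, ho, rp_mul hr, rp_mul hr, mul_one]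
  push_cast
  rw [rp_add hr, rp_add hr]
  have e1 : cr p (redC r hr (if j = 2 then lam else 1)) =
      rp r (if (j : ℕ) = 2 then (l : ℤ) else 0) := by
    by_cases hj : j = 2
    · rw [if_pos hj, if_pos (by rw [hj]; rfl), redC_apply, cj_lam, map_sub, map_one, map_pow,
        redHom_w, hl]
    · rw [if_neg hj, if_neg (fun h : (j : ℕ) = 2 => hj (Fin.ext h)), map_one, cr_one]
      simp [rp]
  have e2 : cr p (redC r hr (if j = i then g ^ 2 else 1)) =
      rp r (if (j : ℕ) = i then 2 * (G : ℤ) else 0) := by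
    by_cases hj : j = i
    · rw [if_pos hj, if_pos (by rw [hj]), map_pow, cr_pow, hG, rp_mul hr]
      push_cast
      rfl
    · rw [if_neg hj, if_neg (fun h => hj (Fin.ext h)), map_one, cr_one]
      simp [rp]
  rw [e1, e2]
  have e3 : (nn : ℤ) * (2 * (o : ℤ)) = 2 * ((nn : ℤ) * o) := by ring
  rw [e3]
  ring

include hN in
/-- The step of the descent. -/
theorem step (i0 : ℕ) (hi0 : i0 < 3) (hgood : Good (m % 3).toNat (n % 3).toNat i0) (g h : R)
    (hg : g = w ^ i0 * ⟨3 * m - 1, 3 * n⟩) (hh : h = cj g) (c1 : IsCoprime lam g)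
    (c2 : IsCoprime lam h) (c3 : IsCoprime g h) (v : Fin 3 → R)
    (hc : ∀ i j, i ≠ j → IsCoprime (v i) (v j)) (hs : ∑ j, v j = 0) (Z : R) (hZ : Z ≠ 0)
    (hp : ∏ j, v j = w * (lam * g ^ 2 * h) * Z ^ 3) :
    ∃ X' Y' Z' : R, IsCoprime X' Y' ∧ X' ^ 3 + Y' ^ 3 = w * (lam * g ^ 2 * h) * Z' ^ 3 ∧
      Z' ≠ 0 ∧ Z' ∣ Z := by
  have h3 := p_mod p m n hN
  have hNg : N g = p := by rw [hg, map_mul, map_pow, N_w, one_pow, one_mul, hN]
  have hpz : Prime (p : ℤ) := Nat.prime_iff_prime_int.1 (Fact.out : p.Prime)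
  have hgP : Prime g := prime_of_N g (by rw [hNg]; exact hpz)
  have hhP : Prime h := prime_of_N h (by rw [hh, N_cj, hNg]; exact hpz)
  obtain ⟨i, k, nn, x, v', hnn, hsum, hv', hs', hdvd, hgi, hhk, hl2, hcop⟩ :=
    normal g h hgP hhP c1 c2 c3 v hc hs Z hZ hp
  obtain ⟨r, hr, h0⟩ := exists_root ⟨3 * m - 1, 3 * n⟩ p hN
  obtain ⟨s1, s2⟩ := supp p m n hN r hr h0
  set ψ := redHom r hr with hψ
  have hψg : ψ g = 0 := by
    rw [hg, map_mul, hψ, redHom_apply r hr ⟨3 * m - 1, 3 * n⟩, h0, mul_zero]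
  have hψg' : (g.re : ZMod p) + g.im * r = 0 := by rw [← redHom_apply r hr]; exact hψg
  have hker : ∀ y, ψ y = 0 ↔ g ∣ y := fun y => redHom_zero_iff g hgP r hr hψg' y
  have hkerC : ∀ y, redC r hr y = 0 ↔ h ∣ y := by
    intro y
    rw [redC_apply, ← hψ, hker, hh]
    constructor
    · rintro ⟨z, hz⟩
      exact ⟨cj z, by rw [← cj_cj y, hz, map_mul]⟩
    · rintro ⟨z, hz⟩
      exact ⟨cj z, by rw [hz, map_mul, cj_cj]⟩
  have hψh : ψ h ≠ 0 := by
    intro h4
    exact hgP.not_isUnit (c3.isUnit_of_dvd' dvd_rfl ((hker h).1 h4))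
  obtain ⟨G, hG3, hG⟩ := cr_root p h3 (ψ h) hψh r hr
  set m' := (m % 3).toNat with hm'
  set n' := (n % 3).toNat with hn'
  set o := (m' + n') % 3 with ho
  set l := (m' + 2 * n') % 3 with hl
  have t1 : cr p r = rp r o := by
    rw [s1]
    apply rp_congr
    omega
  have t2 : cr p (1 - r) = rp r (o + l) := by
    rw [s2]
    apply rp_congr
    omega
  have t3 : cr p (1 - r ^ 2) = rp r l := by
    have e : 1 - r ^ 2 = -(r ^ 2 * (1 - r)) := by
      linear_combination (1 - r) * hr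
    rw [e, cr_neg p h3, cr_mul, cr_pow, s1, s2, rp_mul hr, ← rp_add hr]
    apply rp_congr
    push_cast
    omega
  have t4 : cr p (ψ h) = rp r G := by rw [hG, rp_nat hr]
  have t5 : cr p (redC r hr g) = rp r G := by
    rw [redC_apply, ← hh, ← hψ, t4]
  have nz1 : ∀ j, j ≠ i → ψ (x j) ≠ 0 := by
    intro j hj h4
    apply hgi j hj
    rw [← hker, hv' j, map_mul, map_mul, map_pow ψ (x j), h4]
    ring
  have nz2 : ∀ j, j ≠ k → redC r hr (x j) ≠ 0 := by
    intro j hj h4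
    apply hhk j hj
    rw [← hkerC, hv' j, map_mul, map_mul, map_pow _ (x j), h4]
    ring
  have z1 : ψ (v' i) = 0 := by
    rw [hker, hv' i]
    unfold D
    rw [if_pos rfl]
    exact (((dvd_pow_self g two_ne_zero).mul_left _).mul_right _).mul_right _
  have z2 : redC r hr (v' k) = 0 := by
    rw [hkerC, hv' k]
    unfold D
    rw [if_pos (rfl : k = k)]
    exact (dvd_mul_left h _).mul_right _
  have r1 : rel1 o l G i k (nn 0) (nn 1) (nn 2) = true := by
    refine rel1_of o l G i k nn fun j j' hj hj' hjj' => ?_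
    have e := sum_pair_zero v' ψ hs' i j j' z1 hj hj' hjj'
    have e' := congrArg (cr p) e
    rw [cr_neg p h3, hv' j, hv' j', cr_E1 p h3 r hr o l G t1 t2 g h t4 i k j hj _ _ (nz1 j hj),
      cr_E1 p h3 r hr o l G t1 t2 g h t4 i k j' hj' _ _ (nz1 j' hj')] at e'
    have := rp_inj hr (three_ne p h3) e'
    omega
  have r2 : rel2 o l G i k (nn 0) (nn 1) (nn 2) = true := by
    refine rel2_of o l G i k nn fun j j' hj hj' hjj' => ?_
    have e := sum_pair_zero v' (redC r hr) hs' k j j' z2 hj hj' hjj'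
    have e' := congrArg (cr p) e
    rw [cr_neg p h3, hv' j, hv' j', cr_E2 p h3 r hr o l G t1 t3 g h t5 i k j hj _ _ (nz2 j hj),
      cr_E2 p h3 r hr o l G t1 t3 g h t5 i k j' hj' _ _ (nz2 j' hj')] at e'
    have := rp_inj hr (three_ne p h3) e'
    omega
  have hx0 : ¬ lam ∣ x 0 := by
    intro hd
    apply hl2 0 (by decide)
    rw [hv' 0]
    exact ((hd.trans (dvd_pow_self _ three_ne_zero)).mul_left _).mul_left _
  have hx1 : ¬ lam ∣ x 1 := by
    intro hd
    apply hl2 1 (by decide)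
    rw [hv' 1]
    exact ((hd.trans (dvd_pow_self _ three_ne_zero)).mul_left _).mul_left _
  have hrg : rd g = gN m' n' i0 := by
    rw [hg, rd_mul, rd_w_pow i0 hi0, rd_primary]
    rfl
  have hrh : rd h = cjN (gN m' n' i0) := by rw [hh, rd_cj, hrg]
  have e0 : v' 0 = ((if (0 : Fin 3) = i then g ^ 2 else 1) * (if (0 : Fin 3) = k then h else 1)) *
      (w ^ nn 0 * x 0 ^ 3) := by
    rw [hv' 0]
    unfold D
    rw [if_neg (by decide), one_mul]
  have e1 : v' 1 = ((if (1 : Fin 3) = i then g ^ 2 else 1) * (if (1 : Fin 3) = k then h else 1)) *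
      (w ^ nn 1 * x 1 ^ 3) := by
    rw [hv' 1]
    unfold D
    rw [if_neg (by decide), one_mul]
  have e2 : v' 2 = ((if (2 : Fin 3) = i then g ^ 2 else 1) * (if (2 : Fin 3) = k then h else 1)) *
      (w ^ nn 2 * (lam * x 2 ^ 3)) := by
    rw [hv' 2]
    unfold D
    rw [if_pos rfl]
    ring
  have hsumN : sumN (gN m' n' i0) (cjN (gN m' n' i0)) i k (nn 0) (nn 1) (nn 2) (rd (x 0 ^ 3))
      (rd (x 1 ^ 3)) (rd (lam * x 2 ^ 3)) = (0, 0) := by
    rw [← rd_zero, ← hs', Fin.sum_univ_three, rd_add, rd_add, e0, e1, e2,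
      rd_slot g h i k 0 _ (hnn 0), rd_slot g h i k 1 _ (hnn 1), rd_slot g h i k 2 _ (hnn 2),
      hrh, hrg]
    rfl
  have hsum3 : (nn 0 + nn 1 + nn 2) % 3 = 1 := by
    rw [← hsum, Fin.sum_univ_three]
  obtain ⟨d1, d2, d3⟩ := dec m' n' i0 i k (nn 0) (nn 1) (nn 2) G (by omega) (by omega) hi0 hgood
    i.2 k.2 (hnn 0) (hnn 1) (hnn 2) hsum3 _ _ _ (rd_cube _ hx0) (rd_cube _ hx1)
    (rd_lam_cube _) hsumN hG3 r1 r2
  have d1' : i = 2 := Fin.ext d1
  have d2' : k = 2 := Fin.ext d2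
  rw [d1', d2'] at e0 e1 e2
  rw [if_neg (by decide), if_neg (by decide), one_mul, one_mul] at e0 e1
  rw [if_pos rfl, if_pos rfl] at e2
  refine ⟨x 0, x 1, -x 2, ?_, ?_, ?_, ?_⟩
  · refine IsCoprime.of_isCoprime_of_dvd_left (IsCoprime.of_isCoprime_of_dvd_right hcop ?_) ?_
    · rw [e1]; exact ⟨w ^ nn 1 * x 1 ^ 2, by ring⟩
    · rw [e0]; exact ⟨w ^ nn 0 * x 0 ^ 2, by ring⟩
  · have hw2 : w ^ nn 2 = w * w ^ nn 0 := by
      rw [← pow_succ', rp_nat w_poly, rp_nat w_poly]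
      apply rp_congr
      omega
    rw [Fin.sum_univ_three, e0, e1, e2, ← d3, hw2] at hs'
    have hw0 : w ^ nn 0 ≠ 0 := by
      intro h4
      have h5 : w ^ nn 0 * (w ^ nn 0) ^ 2 = 1 := by
        rw [← pow_succ', ← pow_mul, mul_comm, pow_mul, w_cube, one_pow]
      rw [h4, zero_mul] at h5
      exact zero_ne_one h5
    have : w ^ nn 0 * (x 0 ^ 3 + x 1 ^ 3) = w ^ nn 0 * (w * (lam * g ^ 2 * h) * (-x 2) ^ 3) := by
      linear_combination hs'
    exact mul_left_cancel₀ hw0 this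
  · intro h4
    have h5 : x 2 = 0 := by rw [← neg_neg (x 2), h4, neg_zero]
    have h6 : ∏ j, x j = 0 := Finset.prod_eq_zero (mem_univ 2) h5
    rw [h6, zero_dvd_iff] at hdvd
    exact hZ hdvd
  · rw [neg_dvd]
    exact (Finset.dvd_prod_of_mem x (mem_univ 2)).trans hdvd

end

end Pool.Agent.H42.Cub
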