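import Mathlib

/-!
# Eisenstein integers as a quadratic algebra (helper42)
-/

set_option autoImplicit false

open QuadraticAlgebra

namespace Pool.Agent.H42.Cub

/-- The Eisenstein integers. -/
abbrev R := QuadraticAlgebra ℤ (-1) (-1)

/-- The primitive cube root of unity. -/
def w : R := ⟨0, 1⟩

/-- The prime above `3`. -/
def lam : R := ⟨1, -1⟩

/-- Conjugation. -/
def cj : R →+* R := starRingEnd R

/-- The norm. -/
def N : R →* ℤ := QuadraticAlgebra.norm

@[simp] theorem w_re : w.re = 0 := rfl
@[simp] theorem w_im : w.im = 1 := rfl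
@[simp] theorem lam_re : lam.re = 1 := rfl
@[simp] theorem lam_im : lam.im = -1 := rfl

theorem cj_apply (x : R) : cj x = ⟨x.re - x.im, -x.im⟩ := by
  ext
  · change x.re + (-1) * x.im = _
    ring
  · rfl

@[simp] theorem cj_re (x : R) : (cj x).re = x.re - x.im := by rw [cj_apply]
@[simp] theorem cj_im (x : R) : (cj x).im = -x.im := by rw [cj_apply]

theorem N_def (x : R) : N x = x.re ^ 2 - x.re * x.im + x.im ^ 2 := by
  change x.re * x.re + (-1) * x.re * x.im - (-1) * x.im * x.im = _
  ring

@[simp] theorem cj_cj (x : R) : cj (cj x) = x := by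
  ext <;> simp

theorem w_sq : w ^ 2 = -1 - w := by
  rw [pow_two]
  ext <;> simp

theorem w_cube : w ^ 3 = 1 := by
  rw [pow_succ, w_sq]
  ext <;> simp

theorem w_poly : w ^ 2 + w + 1 = 0 := by
  rw [w_sq]; ring

theorem cj_w : cj w = w ^ 2 := by
  rw [w_sq]
  ext <;> simp

theorem lam_eq : lam = 1 - w := by
  ext <;> simp

theorem cj_lam : cj lam = 1 - w ^ 2 := by
  rw [lam_eq, map_sub, map_one, cj_w]

theorem mul_cj (x : R) : x * cj x = ((N x : ℤ) : R) := by
  ext
  · rw [re_intCast, N_def, re_mul]
    simp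
    ring
  · rw [im_intCast, im_mul]
    simp
    ring

theorem N_nonneg (x : R) : 0 ≤ N x := by
  rw [N_def]
  nlinarith [sq_nonneg (x.re - x.im), sq_nonneg (x.re), sq_nonneg (x.im)]

theorem N_eq_zero (x : R) : N x = 0 ↔ x = 0 := by
  constructor
  · intro h
    rw [N_def] at h
    have h1 : x.im = 0 := by
      have : 3 * x.im ^ 2 = 0 := by nlinarith [sq_nonneg (2 * x.re - x.im), sq_nonneg x.im]
      have h2 : x.im ^ 2 = 0 := by linarith
      exact pow_eq_zero_iff two_ne_zero |>.1 h2
    rw [h1] at h
    have h3 : x.re ^ 2 = 0 := by linarith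
    have h4 : x.re = 0 := pow_eq_zero_iff two_ne_zero |>.1 h3
    ext
    · exact h4
    · exact h1
  · rintro rfl
    simp [N_def]

theorem N_cj (x : R) : N (cj x) = N x := by
  rw [N_def, N_def]; simp; ring

@[simp] theorem N_w : N w = 1 := by simp [N_def]
@[simp] theorem N_lam : N lam = 3 := by simp [N_def]

theorem N_intCast (n : ℤ) : N (n : R) = n ^ 2 := by
  rw [N_def]; simp

/-- Nearest integer quotient. -/
def rdiv (a n : ℤ) : ℤ := (2 * a + n) / (2 * n)

theorem rdiv_spec (a n : ℤ) (hn : 0 < n) :
    -n ≤ 2 * (a - n * rdiv a n) ∧ 2 * (a - n * rdiv a n) ≤ n := by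
  unfold rdiv
  have h1 := Int.emod_nonneg (2 * a + n) (b := 2 * n) (by omega)
  have h2 := Int.emod_lt_of_pos (2 * a + n) (b := 2 * n) (by omega)
  have h3 := Int.emod_add_mul_ediv (2 * a + n) (2 * n)
  set q := (2 * a + n) / (2 * n)
  set s := (2 * a + n) % (2 * n)
  have h4 : 2 * (a - n * q) = s - n := by linarith
  constructor <;> omega

/-- The quotient. -/
def quo (x y : R) : R := ⟨rdiv (x * cj y).re (N y), rdiv (x * cj y).im (N y)⟩

theorem N_rem_lt (x y : R) (hy : y ≠ 0) : N (x - y * quo x y) < N y := by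
  have hN : 0 < N y := lt_of_le_of_ne (N_nonneg y) (fun h => hy ((N_eq_zero y).1 h.symm))
  have key : N (x - y * quo x y) * N y < N y * N y := by
    have h1 : (x - y * quo x y) * cj y = x * cj y - (N y : R) * quo x y := by
      rw [← mul_cj]; ring
    have h2 : N (x - y * quo x y) * N y = N (x * cj y - (N y : R) * quo x y) := by
      rw [← h1, map_mul, N_cj]
    rw [h2, N_def]
    have e1 : (x * cj y - (N y : R) * quo x y).re = (x * cj y).re - N y * rdiv (x * cj y).re (N y) := by
      rw [re_sub]
      congr 1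
      rw [re_mul]
      simp [quo]
    have e2 : (x * cj y - (N y : R) * quo x y).im = (x * cj y).im - N y * rdiv (x * cj y).im (N y) := by
      rw [im_sub]
      congr 1
      rw [im_mul]
      simp [quo]
    rw [e1, e2]
    obtain ⟨a1, a2⟩ := rdiv_spec (x * cj y).re (N y) hN
    obtain ⟨b1, b2⟩ := rdiv_spec (x * cj y).im (N y) hN
    set u := (x * cj y).re - N y * rdiv (x * cj y).re (N y)
    set v := (x * cj y).im - N y * rdiv (x * cj y).im (N y)
    have c1 : u ^ 2 * 4 ≤ N y ^ 2 := by nlinarith
    have c2 : v ^ 2 * 4 ≤ N y ^ 2 := by nlinarith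
    have c3 : (u - v) ^ 2 ≤ N y ^ 2 := by
      have : -N y ≤ u - v ∧ u - v ≤ N y := by constructor <;> linarith
      nlinarith
    nlinarith [mul_pos hN hN]
  exact lt_of_mul_lt_mul_right key hN.le

noncomputable instance : EuclideanDomain R :=
  { (inferInstance : CommRing R), (inferInstance : Nontrivial R) with
    quotient := quo
    quotient_zero := by
      intro x
      have : N (0 : R) = 0 := by simp [N_def]
      simp only [quo, rdiv, this, mul_zero, Int.ediv_zero]
      rfl
    remainder := fun x y => x - y * quo x y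
    quotient_mul_add_remainder_eq := by
      intro x y
      ring
    r := fun x y => (N x).natAbs < (N y).natAbs
    r_wellFounded := (measure (fun x : R => (N x).natAbs)).wf
    remainder_lt := by
      intro x y hy
      have h1 := N_rem_lt x y hy
      have h2 := N_nonneg (x - y * quo x y)
      have h3 := N_nonneg y
      omega
    mul_left_not_lt := by
      intro x y hy
      rw [map_mul]
      have h1 : 1 ≤ N y := by
        have := N_nonneg y
        have h2 : N y ≠ 0 := fun h => hy ((N_eq_zero y).1 h)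
        omega
      have h2 := N_nonneg x
      have h3 : N x ≤ N x * N y := by nlinarith
      omega }

noncomputable example : IsPrincipalIdealRing R := inferInstance
noncomputable example : IsDomain R := inferInstance

theorem isUnit_iff (x : R) : IsUnit x ↔ N x = 1 := by
  constructor
  · intro h
    have := h.map N
    have h2 := Int.isUnit_iff.1 this
    have h3 := N_nonneg x
    omega
  · intro h
    refine IsUnit.of_mul_eq_one (cj x) ?_
    rw [mul_cj, h]; simp

theorem unit_eq (x : R) (h : IsUnit x) : ∃ n : ℕ, n < 3 ∧ (x = w ^ n ∨ x = -w ^ n) := by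
  rw [isUnit_iff, N_def] at h
  have h1 : 3 * x.im ^ 2 ≤ 4 := by nlinarith [sq_nonneg (2 * x.re - x.im)]
  have h2 : 3 * x.re ^ 2 ≤ 4 := by nlinarith [sq_nonneg (2 * x.im - x.re)]
  have i1 : x.im ≤ 1 := by nlinarith
  have i2 : -1 ≤ x.im := by nlinarith
  have r1 : x.re ≤ 1 := by nlinarith
  have r2 : -1 ≤ x.re := by nlinarith
  obtain ⟨a, b⟩ := x
  simp only at h i1 i2 r1 r2
  interval_cases a <;> interval_cases b <;> simp at h
  · exact ⟨2, by norm_num, Or.inl (by rw [w_sq]; ext <;> simp)⟩
  · exact ⟨0, by norm_num, Or.inr (by ext <;> simp)⟩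
  · exact ⟨1, by norm_num, Or.inr (by ext <;> simp)⟩
  · exact ⟨1, by norm_num, Or.inl (by ext <;> simp)⟩
  · exact ⟨0, by norm_num, Or.inl (by ext <;> simp)⟩
  · exact ⟨2, by norm_num, Or.inr (by rw [w_sq]; ext <;> simp)⟩

theorem prime_of_N (x : R) (h : Prime (N x)) : Prime x := by
  rw [← irreducible_iff_prime]
  constructor
  · intro hx
    rw [isUnit_iff] at hx
    rw [hx] at h
    exact h.not_isUnit isUnit_one
  · intro a b hab
    have h1 : N x = N a * N b := by rw [hab, map_mul]
    rw [h1] at h
    have h2 := h.irreducible.isUnit_or_isUnit rfl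
    rcases h2 with h2 | h2
    · left
      rw [isUnit_iff]
      have := Int.isUnit_iff.1 h2
      have h3 := N_nonneg a
      omega
    · right
      rw [isUnit_iff]
      have := Int.isUnit_iff.1 h2
      have h3 := N_nonneg b
      omega

theorem prime_lam : Prime lam := prime_of_N lam (by rw [N_lam]; exact Int.prime_three)

theorem lam_dvd_iff (x : R) : lam ∣ x ↔ (3 : ℤ) ∣ x.re + x.im := by
  constructor
  · rintro ⟨y, rfl⟩
    simp
    ring_nf
    exact ⟨y.im, by ring⟩
  · rintro ⟨k, hk⟩
    refine ⟨⟨k, 0⟩ * cj lam - ⟨x.im, 0⟩, ?_⟩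
    have : x.re = 3 * k - x.im := by linarith
    ext
    · simp [this]; ring
    · simp; ring

end Pool.Agent.H42.Cub
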