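import Pool.Agent.Lib.H42.Cub.Main

/-!
# Cyclic cubic fields (helper42)
-/

set_option autoImplicit false
set_option linter.unusedSectionVars false

open QuadraticAlgebra Pool.Agent.H60.UDef

namespace Pool.Agent.H42.Cub

/-- In a cubic field the roots of rational quadratic polynomials are rational. -/
theorem quad_rat (K : Type) [Field K] [NumberField K] (hK : Module.finrank ℚ K = 3) (x : K)
    (u v : ℚ) (h : x ^ 2 + (u : K) * x + (v : K) = 0) : ∃ q : ℚ, (q : K) = x := by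
  have hint : IsIntegral ℚ x := Algebra.IsIntegral.isIntegral x
  have h1 : (minpoly ℚ x).natDegree ∣ 3 := hK ▸ minpoly.degree_dvd hint
  set P : Polynomial ℚ := Polynomial.X ^ 2 + Polynomial.C u * Polynomial.X + Polynomial.C v with hP
  have hPm : P.Monic := by
    rw [hP]
    monicity!
  have hdeg : P.natDegree ≤ 2 := by
    rw [hP]
    compute_degree
  have hroot : Polynomial.aeval x P = 0 := by
    rw [hP]
    simpa using h
  have h2 : (minpoly ℚ x).natDegree ≤ 2 :=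
    (Polynomial.natDegree_le_natDegree (minpoly.min ℚ x hPm hroot)).trans hdeg
  have h3 := (Nat.dvd_prime Nat.prime_three).1 h1
  have h4 : (minpoly ℚ x).natDegree = 1 := by omega
  rw [minpoly.natDegree_eq_one_iff] at h4
  obtain ⟨q, hq⟩ := h4
  exact ⟨q, by simpa using hq⟩

/-- Data from a representation of `4 p`. -/
theorem exists_data (p : ℕ) [hp : Fact p.Prime] (hp3 : p ≠ 3) (T b : ℤ)
    (hTb : 4 * (p : ℤ) = T ^ 2 + 3 * b ^ 2) (h9 : ¬ (9 : ℤ) ∣ b)
    (hbad : p % 9 = 1 → ¬ (3 : ℤ) ∣ b ∧ ¬ (9 : ℤ) ∣ T - b ∧ ¬ (9 : ℤ) ∣ T + b) :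
    ∃ (m n : ℤ) (i0 : ℕ) (g h : R) (e : ℤ), Data p m n i0 g h ∧ (e = 1 ∨ e = -1) ∧
      2 * (g ^ 2 * h).re = e * p * (T + b) ∧ (g ^ 2 * h).im = e * p * b := by
  obtain ⟨a, ha⟩ : ∃ a, T = 2 * a - b := by
    have h2 : (T ^ 2 - b ^ 2) % 2 = 0 := by
      have : T ^ 2 - b ^ 2 = 2 * (2 * (p : ℤ) - 2 * b ^ 2) := by linarith
      omega
    have h3 : (T - b) % 2 = 0 := by
      have h4 : (T ^ 2 - b ^ 2) = (T - b) * (T + b) := by ring
      rcases Int.emod_two_eq_zero_or_one (T - b) with h5 | h5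
      · exact h5
      · exfalso
        obtain ⟨c, hc⟩ : ∃ c, T - b = 2 * c + 1 := ⟨(T - b) / 2, by omega⟩
        have h6 : T + b = 2 * (c + b) + 1 := by linarith
        have h7 : (T - b) * (T + b) = 2 * (2 * c * (c + b) + c + (c + b)) + 1 := by
          rw [hc, h6]; ring
        rw [h4, h7] at h2
        omega
    exact ⟨(T + b) / 2, by omega⟩
  have hN : (p : ℤ) = a ^ 2 - a * b + b ^ 2 := by
    rw [ha] at hTb
    nlinarith
  -- the key construction
  have key : ∀ (m n : ℤ) (i0 : ℕ) (e : ℤ), i0 < 3 → (e = 1 ∨ e = -1) →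
      w ^ i0 * (⟨3 * m - 1, 3 * n⟩ : R) = ((e : ℤ) : R) * ⟨a, b⟩ →
      Good (m % 3).toNat (n % 3).toNat i0 →
      ∃ (m n : ℤ) (i0 : ℕ) (g h : R) (e : ℤ), Data p m n i0 g h ∧ (e = 1 ∨ e = -1) ∧
        2 * (g ^ 2 * h).re = e * p * (T + b) ∧ (g ^ 2 * h).im = e * p * b := by
    intro m n i0 e hi he hw hgood
    have he2 : e ^ 2 = 1 := by rcases he with rfl | rfl <;> norm_num
    have hNN : N ⟨3 * m - 1, 3 * n⟩ = p := by
      have h1 := congrArg N hw
      rw [map_mul, map_mul, map_pow, N_w, one_pow, one_mul, N_intCast, he2, one_mul,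
        N_def ⟨a, b⟩] at h1
      rw [h1, hN]
    have hgh : (w ^ i0 * (⟨3 * m - 1, 3 * n⟩ : R)) ^ 2 * cj (w ^ i0 * (⟨3 * m - 1, 3 * n⟩ : R)) =
        ((e * p : ℤ) : R) * ⟨a, b⟩ := by
      have h1 : (w ^ i0 * (⟨3 * m - 1, 3 * n⟩ : R)) ^ 2 *
          cj (w ^ i0 * (⟨3 * m - 1, 3 * n⟩ : R)) =
          (w ^ i0 * (⟨3 * m - 1, 3 * n⟩ : R)) * ((w ^ i0 * (⟨3 * m - 1, 3 * n⟩ : R)) *
          cj (w ^ i0 * (⟨3 * m - 1, 3 * n⟩ : R))) := by ring
      rw [h1, mul_cj, map_mul, map_pow, N_w, one_pow, one_mul, hNN, hw]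
      push_cast
      ring
    refine ⟨m, n, i0, w ^ i0 * ⟨3 * m - 1, 3 * n⟩, cj (w ^ i0 * ⟨3 * m - 1, 3 * n⟩), e,
      ⟨hNN, hi, hgood, rfl, rfl⟩, he, ?_, ?_⟩
    · rw [hgh, re_mul, ha]
      simp
      ring
    · rw [hgh, im_mul]
      simp
  have hp9 : ∀ m n : ℤ, (p : ℤ) = (3 * m - 1) ^ 2 - (3 * m - 1) * (3 * n) + (3 * n) ^ 2 →
      (m + n) % 3 = 0 → p % 9 = 1 := by
    intro m n h1 h2
    have h3 : (p : ℤ) = 9 * (m ^ 2 - m * n + n ^ 2 - m) + 3 * (m + n) + 1 := by rw [h1]; ring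
    omega
  have hp3' : (p : ℤ) % 3 ≠ 0 := by
    intro h
    have h1 : (3 : ℤ) ∣ p := Int.dvd_of_emod_eq_zero h
    have h2 : 3 ∣ p := by exact_mod_cast h1
    exact hp3 ((Nat.prime_dvd_prime_iff_eq Nat.prime_three hp.out).1 h2).symm
  -- residues modulo three
  have hab : b % 3 = 0 ∨ a % 3 = 0 ∨ (a - b) % 3 = 0 := by
    by_contra hcon
    push Not at hcon
    obtain ⟨h1, h2, h3⟩ := hcon
    apply hp3'
    rw [hN]
    have h4 : (a + b) % 3 = 0 := by
      have ha' : a % 3 = 1 ∨ a % 3 = 2 := by omega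
      have hb' : b % 3 = 1 ∨ b % 3 = 2 := by omega
      rcases ha' with h5 | h5 <;> rcases hb' with h6 | h6 <;> omega
    obtain ⟨c, hc⟩ : ∃ c, a = 3 * c - b := ⟨(a + b) / 3, by omega⟩
    rw [hc]
    have : (3 * c - b) ^ 2 - (3 * c - b) * b + b ^ 2 = 3 * (3 * c ^ 2 - 3 * c * b + b ^ 2) := by
      ring
    omega
  rcases hab with hb | hb | hb
  · obtain ⟨b', rfl⟩ : ∃ b', b = 3 * b' := ⟨b / 3, by omega⟩
    have ha3 : a % 3 ≠ 0 := by
      intro h0
      obtain ⟨a', rfl⟩ : ∃ a', a = 3 * a' := ⟨a / 3, by omega⟩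
      apply hp3'
      rw [hN]
      have : (3 * a') ^ 2 - 3 * a' * (3 * b') + (3 * b') ^ 2 =
        3 * (3 * (a' ^ 2 - a' * b' + b' ^ 2)) := by ring
      omega
    have h91 : p % 9 ≠ 1 := fun h => (hbad h).1 (dvd_mul_right 3 b')
    by_cases ha1 : a % 3 = 2
    · obtain ⟨m, rfl⟩ : ∃ m, a = 3 * m - 1 := ⟨(a + 1) / 3, by omega⟩
      refine key m b' 0 1 (by norm_num) (Or.inl rfl) (by simp) (Or.inl ⟨rfl, ?_, ?_⟩)
      · omega
      · intro h0
        exact h91 (hp9 m b' hN (by omega))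
    · obtain ⟨m, rfl⟩ : ∃ m, a = -(3 * m - 1) := ⟨(1 - a) / 3, by omega⟩
      refine key m (-b') 0 (-1) (by norm_num) (Or.inr rfl) (by ext <;> simp)
        (Or.inl ⟨rfl, ?_, ?_⟩)
      · omega
      · intro h0
        refine h91 (hp9 m (-b') (by rw [hN]; ring) (by omega))
  · obtain ⟨a', rfl⟩ : ∃ a', a = 3 * a' := ⟨a / 3, by omega⟩
    have ha3 : b % 3 ≠ 0 := by
      intro h0
      obtain ⟨b', rfl⟩ : ∃ b', b = 3 * b' := ⟨b / 3, by omega⟩
      apply hp3'
      rw [hN]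
      have : (3 * a') ^ 2 - 3 * a' * (3 * b') + (3 * b') ^ 2 =
        3 * (3 * (a' ^ 2 - a' * b' + b' ^ 2)) := by ring
      omega
    -- `⟨a, b⟩ = w ⟨b - a, -a⟩`
    by_cases ha1 : b % 3 = 2
    · obtain ⟨m, hm⟩ : ∃ m, b - 3 * a' = 3 * m - 1 := ⟨(b - 3 * a' + 1) / 3, by omega⟩
      refine key m (-a') 1 1 (by norm_num) (Or.inl rfl) ?_ (Or.inr ⟨by norm_num, ?_⟩)
      · ext <;> simp <;> linarith
      · rintro ⟨h1, h2⟩
        have h4 := hbad (hp9 m (-a') (by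
          rw [hN]
          have : b = 3 * m - 1 + 3 * a' := by linarith
          rw [this]; ring) (by omega))
        apply h4.2.2
        rw [ha]
        omega
    · obtain ⟨m, hm⟩ : ∃ m, b - 3 * a' = -(3 * m - 1) := ⟨(1 - (b - 3 * a')) / 3, by omega⟩
      refine key m a' 1 (-1) (by norm_num) (Or.inr rfl) ?_ (Or.inr ⟨by norm_num, ?_⟩)
      · ext <;> simp <;> linarith
      · rintro ⟨h1, h2⟩
        have h4 := hbad (hp9 m a' (by
          rw [hN]
          have : b = -(3 * m - 1) + 3 * a' := by linarith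
          rw [this]; ring) (by omega))
        apply h4.2.2
        rw [ha]
        omega
  · obtain ⟨c, rfl⟩ : ∃ c, a = b + 3 * c := ⟨(a - b) / 3, by omega⟩
    have ha3 : b % 3 ≠ 0 := by
      intro h0
      obtain ⟨b', rfl⟩ : ∃ b', b = 3 * b' := ⟨b / 3, by omega⟩
      apply hp3'
      rw [hN]
      have : (3 * b' + 3 * c) ^ 2 - (3 * b' + 3 * c) * (3 * b') + (3 * b') ^ 2 =
        3 * (3 * ((b' + c) ^ 2 - (b' + c) * b' + b' ^ 2)) := by ring
      omega
    -- `⟨a, b⟩ = w² ⟨-b, a - b⟩`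
    by_cases ha1 : b % 3 = 1
    · obtain ⟨m, hm⟩ : ∃ m, -b = 3 * m - 1 := ⟨(-b + 1) / 3, by omega⟩
      refine key m c 2 1 (by norm_num) (Or.inl rfl) ?_ (Or.inr ⟨by norm_num, ?_⟩)
      · rw [w_sq]
        ext <;> simp <;> linarith
      · rintro ⟨h1, h2⟩
        have h4 := hbad (hp9 m c (by
          rw [hN]
          have : b = -(3 * m - 1) := by linarith
          rw [this]; ring) (by omega))
        apply h4.2.1
        rw [ha]
        omega
    · obtain ⟨m, hm⟩ : ∃ m, b = 3 * m - 1 := ⟨(b + 1) / 3, by omega⟩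
      refine key m (-c) 2 (-1) (by norm_num) (Or.inr rfl) ?_ (Or.inr ⟨by norm_num, ?_⟩)
      · rw [w_sq]
        ext <;> simp <;> linarith
      · rintro ⟨h1, h2⟩
        have h4 := hbad (hp9 m (-c) (by
          rw [hN, hm]; ring) (by omega))
        apply h4.2.1
        rw [ha]
        omega

section final

variable (K : Type) [Field K] [NumberField K] (hK : Module.finrank ℚ K = 3)

include hK in
theorem no_root (x : K) : x ^ 2 ≠ -1 + -1 * x := by
  intro h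
  obtain ⟨q, hq⟩ := quad_rat K hK x 1 1 (by push_cast; linear_combination h)
  have h1 : ((q ^ 2 : ℚ) : K) = ((-1 + -1 * q : ℚ) : K) := by
    push_cast
    rw [hq]
    exact h
  exact factQ.out q (by exact_mod_cast h1)

/-- The inclusion of `ℚ(w)` in `K(w)`. -/
noncomputable def incl [Fact (∀ r : K, r ^ 2 ≠ -1 + -1 * r)] :
    F3 →+* QuadraticAlgebra K (-1 : K) (-1 : K) where
  toFun x := ⟨(x.re : K), (x.im : K)⟩
  map_zero' := by ext <;> simp
  map_one' := by ext <;> simp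
  map_add' x y := by ext <;> simp
  map_mul' x y := by ext <;> simp

include hK in
/-- The main theorem. -/
theorem exists_rankStable (p : ℕ) (hp : p.Prime) (hp3 : p ≠ 3) (T b : ℤ)
    (hTb : 4 * (p : ℤ) = T ^ 2 + 3 * b ^ 2) (h9 : ¬ (9 : ℤ) ∣ b)
    (hbad : p % 9 = 1 → ¬ (3 : ℤ) ∣ b ∧ ¬ (9 : ℤ) ∣ T - b ∧ ¬ (9 : ℤ) ∣ T + b)
    (r : K) (hr : r ^ 3 = 3 * p * r + p * T) :
    ∃ (L : Type) (_ : Field L) (_ : NumberField L) (_ : Algebra K L) (_ : Algebra F3 L),
      RankStable F3 L ∧ ∀ (x : K) (c : F3), algebraMap F3 L c = algebraMap K L x →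
        ∃ q : ℚ, (q : K) = x := by
  have _ : Fact p.Prime := ⟨hp⟩
  have hfact : Fact (∀ r : K, r ^ 2 ≠ -1 + -1 * r) := ⟨no_root K hK⟩
  obtain ⟨m, n, i0, g, h, e, S, he, hre, him⟩ := exists_data p hp3 T b hTb h9 hbad
  let L := QuadraticAlgebra K (-1 : K) (-1 : K)
  have hL : NumberField L := NumberField.of_module_finite K L
  let _ : Algebra F3 L := (incl K).toAlgebra
  have hdim : Module.finrank F3 L = 3 := by
    have e1 : Module.finrank ℚ F3 * Module.finrank F3 L = Module.finrank ℚ L :=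
      Module.finrank_mul_finrank ℚ F3 L
    have e2 : Module.finrank ℚ K * Module.finrank K L = Module.finrank ℚ L :=
      Module.finrank_mul_finrank ℚ K L
    have e3 : Module.finrank K L = 2 := QuadraticAlgebra.finrank_eq_two _ _
    have e4 : Module.finrank ℚ F3 = 2 := QuadraticAlgebra.finrank_eq_two _ _
    rw [hK, e3] at e2
    rw [e4] at e1
    omega
  have hp0 : (p : K) ≠ 0 := by exact_mod_cast hp.ne_zero
  have hb0 : (b : K) ≠ 0 := by
    have : b ≠ 0 := by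
      rintro rfl
      exact h9 (dvd_zero 9)
    exact_mod_cast this
  have hTb' : 4 * (p : K) = (T : K) ^ 2 + 3 * (b : K) ^ 2 := by exact_mod_cast hTb
  have hkey : (4 * (p : K) - r ^ 2) * (r ^ 2 - p) ^ 2 = 3 * (p : K) ^ 2 * (b : K) ^ 2 := by
    have h1 : r ^ 3 - 3 * p * r = p * T := by rw [hr]; ring
    linear_combination (p : K) ^ 2 * hTb' - (r ^ 3 - 3 * p * r + p * T) * h1
  have hrp : r ^ 2 - (p : K) ≠ 0 := by
    intro h0
    rw [h0] at hkey
    have : 3 * (p : K) ^ 2 * (b : K) ^ 2 = 0 := by rw [← hkey]; ring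
    exact mul_ne_zero (mul_ne_zero three_ne_zero (pow_ne_zero 2 hp0)) (pow_ne_zero 2 hb0) this
  obtain ⟨t, ht⟩ : ∃ t : K, t * (r ^ 2 - p) = p * b := ⟨p * b / (r ^ 2 - p), by field_simp⟩
  have ht2 : 3 * t ^ 2 = 4 * (p : K) - r ^ 2 := by
    have : (r ^ 2 - (p : K)) ^ 2 * (3 * t ^ 2) = (r ^ 2 - p) ^ 2 * (4 * (p : K) - r ^ 2) := by
      linear_combination 3 * (t * (r ^ 2 - p) + p * b) * ht - hkey
    exact mul_left_cancel₀ (pow_ne_zero 2 hrp) this
  have heK : (e : K) ^ 2 = 1 := by rcases he with rfl | rfl <;> norm_num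
  have he3 : (e : K) ^ 3 = e := by rw [pow_succ, heK, one_mul]
  refine ⟨L, inferInstance, hL, inferInstance, inferInstance, ?_, ?_⟩
  · refine rankStable S L hdim (⟨(e : K) * ((r + t) / 2), (e : K) * t⟩ : L) ?_
    have h1 : algebraMap F3 L (io (g ^ 2 * h)) =
        ⟨(((io (g ^ 2 * h)).re : ℚ) : K), (((io (g ^ 2 * h)).im : ℚ) : K)⟩ := rfl
    have hre' : 2 * ((g ^ 2 * h).re : K) = e * p * (T + b) := by exact_mod_cast hre
    have him' : ((g ^ 2 * h).im : K) = e * p * b := by exact_mod_cast him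
    rw [h1, io_re, io_im]
    have h2 : ∀ x y : K, ((⟨x, y⟩ : L) ^ 3) =
        ⟨x ^ 3 - 3 * x * y ^ 2 + y ^ 3, 3 * x * y * (x - y)⟩ := by
      intro x y
      rw [pow_succ, pow_two]
      ext
      · simp only [re_mul, im_mul]
        ring
      · simp only [re_mul, im_mul]
        ring
    rw [h2]
    ext
    · simp only
      push_cast
      have h3 : ((e : K) * ((r + t) / 2)) ^ 3 - 3 * ((e : K) * ((r + t) / 2)) * ((e : K) * t) ^ 2 +
          ((e : K) * t) ^ 3 = (e : K) ^ 3 * (r ^ 3 + 3 * r ^ 2 * t - 9 * r * t ^ 2 - 3 * t ^ 3) / 8 := by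
        ring
      rw [h3, he3]
      have h4 : r ^ 3 + 3 * r ^ 2 * t - 9 * r * t ^ 2 - 3 * t ^ 3 = 4 * (p * T + p * b) := by
        linear_combination 4 * hr + 4 * ht - (3 * r + t) * ht2
      rw [h4]
      linear_combination (-1 / 2 : K) * hre'
    · simp only
      push_cast
      rw [him']
      have h3 : 3 * ((e : K) * ((r + t) / 2)) * ((e : K) * t) *
          ((e : K) * ((r + t) / 2) - (e : K) * t) = (e : K) ^ 3 * (3 * t * (r ^ 2 - t ^ 2)) / 4 := by
        ring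
      rw [h3, he3]
      have h4 : 3 * t * (r ^ 2 - t ^ 2) = 4 * (p * b) := by
        linear_combination 4 * ht - t * ht2
      rw [h4]
      ring
  · intro x c hc
    have h1 : (c.re : K) = x := congrArg QuadraticAlgebra.re hc
    exact ⟨c.re, h1⟩

end final

end Pool.Agent.H42.Cub
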