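import Pool.Agent.Lib.H42.Cub.Curve

/-!
# A point of infinite order on `y² = x³ - 34992` (helper42)
-/

set_option autoImplicit false
set_option linter.unusedSectionVars false

open WeierstrassCurve WeierstrassCurve.Affine Pool.Agent.H60.UDef

namespace Pool.Agent.H42.Cub

theorem val_two : padicValRat 2 (2 : ℚ) = 1 := by
  have := padicValRat.self (p := 2) (by norm_num)
  exact_mod_cast this

theorem val_odd (n : ℤ) (h : ¬ (2 : ℤ) ∣ n) : padicValRat 2 (n : ℚ) = 0 := by
  rw [padicValRat.of_int, padicValInt.eq_zero_of_not_dvd (by exact_mod_cast h)]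
  rfl

theorem val_34992 : padicValRat 2 (34992 : ℚ) = 4 := by
  have h : (34992 : ℚ) = 2 ^ 4 * ((2187 : ℤ) : ℚ) := by norm_num
  rw [h, padicValRat.mul (by norm_num) (by norm_num), padicValRat.pow, val_two,
    val_odd 2187 (by norm_num)]
  norm_num

theorem val_279936 : padicValRat 2 (279936 : ℚ) = 7 := by
  have h : (279936 : ℚ) = 2 ^ 7 * ((2187 : ℤ) : ℚ) := by norm_num
  rw [h, padicValRat.mul (by norm_num) (by norm_num), padicValRat.pow, val_two,
    val_odd 2187 (by norm_num)]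
  norm_num

theorem val_four' : padicValRat 2 (4 : ℚ) = 2 := by
  have h : (4 : ℚ) = 2 ^ 2 := by norm_num
  rw [h, padicValRat.pow, val_two]
  norm_num

/-- The doubling map. -/
def dX (x : ℚ) : ℚ := (x * (x ^ 3 + 279936)) / (4 * (x ^ 3 - 34992))

theorem val_dX (x : ℚ) (hx : x ≠ 0) (hv : padicValRat 2 x ≤ 0) :
    padicValRat 2 (dX x) = padicValRat 2 x - 2 := by
  have h3 : padicValRat 2 (x ^ 3) = 3 * padicValRat 2 x := by
    rw [padicValRat.pow]; norm_num
  have hx3 : x ^ 3 ≠ 0 := pow_ne_zero 3 hx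
  have n1 : x ^ 3 + 279936 ≠ 0 := by
    intro h
    have h4 : x ^ 3 = -279936 := by linarith
    rw [h4, padicValRat.neg, val_279936] at h3
    omega
  have n2 : x ^ 3 + (-34992) ≠ 0 := by
    intro h
    have h4 : x ^ 3 = 34992 := by linarith
    rw [h4, val_34992] at h3
    omega
  have e1 : padicValRat 2 (x ^ 3 + 279936) = 3 * padicValRat 2 x := by
    rw [padicValRat.add_eq_of_lt n1 hx3 (by norm_num), h3]
    rw [h3, val_279936]
    omega
  have e2 : padicValRat 2 (x ^ 3 + (-34992)) = 3 * padicValRat 2 x := by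
    rw [padicValRat.add_eq_of_lt n2 hx3 (by norm_num), h3]
    rw [h3, padicValRat.neg, val_34992]
    omega
  have e3 : dX x = (x * (x ^ 3 + 279936)) / (4 * (x ^ 3 + (-34992))) := by
    unfold dX
    rw [sub_eq_add_neg]
  rw [e3, padicValRat.div (mul_ne_zero hx n1) (mul_ne_zero (by norm_num) n2),
    padicValRat.mul hx n1, padicValRat.mul (by norm_num) n2, e1, e2, val_four']
  ring

section

variable {F : Type} [Field F] [CharZero F] [DecidableEq F]

/-- Doubling a rational point. -/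
theorem double (W : WeierstrassCurve F) (h1 : W.a₁ = 0) (h2 : W.a₂ = 0) (h3 : W.a₃ = 0)
    (h4 : W.a₄ = 0) (x y : ℚ) (heq : y ^ 2 = x ^ 3 - 34992) (hy : y ≠ 0)
    (h : W.toAffine.Nonsingular (x : F) (y : F)) :
    ∃ x' y' : ℚ, ∃ h' : W.toAffine.Nonsingular (x' : F) (y' : F),
      (Point.some _ _ h + Point.some _ _ h : W.toAffine.Point) =
        Point.some _ _ h' ∧ x' = dX x := by
  have hyF : (y : F) ≠ 0 := by exact_mod_cast hy
  have hyn : (y : F) ≠ W.toAffine.negY (x : F) (y : F) := by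
    rw [negY_j0 W h1 h3]
    intro h0
    have : (2 : F) * y = 0 := by linear_combination h0
    exact (mul_ne_zero two_ne_zero hyF) this
  obtain ⟨l, hl⟩ : ∃ l : ℚ, l = 3 * x ^ 2 / (2 * y) := ⟨_, rfl⟩
  have hs : W.toAffine.slope (x : F) (x : F) (y : F) (y : F) = (l : F) := by
    rw [slope_of_Y_ne rfl hyn, negY_j0 W h1 h3, h1, h2, h4, hl]
    push_cast
    congr 1 <;> ring
  have hadd := Point.add_self_of_Y_ne (W := W.toAffine) (h₁ := h) hyn
  have hX : W.toAffine.addX (x : F) (x : F) (W.toAffine.slope (x : F) (x : F) (y : F) (y : F)) =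
      ((l ^ 2 - x - x : ℚ) : F) := by
    rw [hs, addX, h1, h2]
    push_cast
    ring
  have hY : W.toAffine.addY (x : F) (x : F) (y : F)
      (W.toAffine.slope (x : F) (x : F) (y : F) (y : F)) =
      ((-(l * (l ^ 2 - x - x - x) + y) : ℚ) : F) := by
    rw [addY, negY_j0 W h1 h3, negAddY, hX, hs]
    push_cast
    ring
  have hns : W.toAffine.Nonsingular ((l ^ 2 - x - x : ℚ) : F)
      ((-(l * (l ^ 2 - x - x - x) + y) : ℚ) : F) := by
    rw [← hX, ← hY]
    exact nonsingular_add h h (fun hxy => hyn hxy.right)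
  refine ⟨l ^ 2 - x - x, -(l * (l ^ 2 - x - x - x) + y), hns, ?_, ?_⟩
  · rw [hadd, Point.some.injEq]
    exact ⟨hX, hY⟩
  · rw [hl, dX, ← heq]
    have hx3 : x ^ 3 + 279936 = 9 * x ^ 3 - 8 * y ^ 2 := by rw [heq]; ring
    rw [hx3]
    field_simp
    ring

theorem infinite_orderW (W : WeierstrassCurve F) (h1 : W.a₁ = 0) (h2 : W.a₂ = 0) (h3 : W.a₃ = 0)
    (h4 : W.a₄ = 0) (hE : ∀ x y : ℚ, W.toAffine.Equation (x : F) (y : F) → y ^ 2 = x ^ 3 - 34992)
    (x₀ y₀ : ℚ) (hx₀ : x₀ ≠ 0) (hv : padicValRat 2 x₀ = 0)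
    (h : W.toAffine.Nonsingular (x₀ : F) (y₀ : F)) (k : ℕ) (hk : 0 < k) :
    k • (Point.some _ _ h : W.toAffine.Point) ≠ 0 := by
  obtain ⟨P, hP⟩ : ∃ P : W.toAffine.Point, P = Point.some _ _ h := ⟨_, rfl⟩
  rw [← hP]
  have key : ∀ j : ℕ, ∃ x' y' : ℚ,
      ∃ h' : W.toAffine.Nonsingular (x' : F) (y' : F),
        2 ^ j • P = Point.some _ _ h' ∧ x' ≠ 0 ∧ padicValRat 2 x' = -2 * j := by
    intro j
    induction j with
    | zero =>
      refine ⟨x₀, y₀, h, ?_, hx₀, ?_⟩
      · rw [pow_zero, one_nsmul, hP]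
      · rw [hv]; simp
    | succ j ih =>
      obtain ⟨x', y', h', e1, hx0, e2⟩ := ih
      have heq : y' ^ 2 = x' ^ 3 - 34992 := hE x' y' h'.1
      have hy0 : y' ≠ 0 := by
        rintro rfl
        have h3 : padicValRat 2 (x' ^ 3) = 3 * padicValRat 2 x' := by
          rw [padicValRat.pow]; norm_num
        have h4 : x' ^ 3 = 34992 := by linarith
        rw [h4, val_34992, e2] at h3
        omega
      obtain ⟨x₂, y₂, h₂, e3, e4⟩ := double W h1 h2 h3 h4 x' y' heq hy0 h'
      have e5 : padicValRat 2 x₂ = -2 * ((j : ℤ) + 1) := by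
        rw [e4, val_dX x' hx0 (by rw [e2]; omega), e2]
        ring
      refine ⟨x₂, y₂, h₂, ?_, ?_, by rw [e5]; push_cast; ring⟩
      · rw [pow_succ, mul_nsmul, e1, two_nsmul, e3]
      · rintro rfl
        rw [padicValRat.zero] at e5
        omega
  intro hk0
  have hfin : (AddSubgroup.zmultiples P : Set W.toAffine.Point).Finite := by
    have h1 : IsOfFinAddOrder P := isOfFinAddOrder_iff_nsmul_eq_zero.2 ⟨k, hk, hk0⟩
    exact h1.finite_zmultiples
  have hinj : Function.Injective (fun j : ℕ => 2 ^ j • P) := by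
    intro i j hij
    simp only at hij
    obtain ⟨x₁, y₁, h₁, e1, -, e2⟩ := key i
    obtain ⟨x₂, y₂, h₂, e3, -, e4⟩ := key j
    rw [e1, e3, Point.some.injEq] at hij
    have : x₁ = x₂ := by exact_mod_cast hij.1
    rw [this, e4] at e2
    omega
  have hinf := Set.infinite_range_of_injective hinj
  apply hinf
  refine hfin.subset ?_
  rintro _ ⟨j, rfl⟩
  exact AddSubgroup.nsmul_mem_zmultiples P _

theorem exists_infinite_order :
    ∃ P : ((shortW (0 : F) (-34992))⁄F).Point, ∀ n : ℕ, 0 < n → n • P ≠ 0 := by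
  have hns : ((shortW (0 : F) (-34992))⁄F).Nonsingular ((73 : ℚ) : F) ((595 : ℚ) : F) := by
    rw [nonsingular_iff']
    refine ⟨(eqn _ _).2 (by norm_num), Or.inr ?_⟩
    simp [shortW]
  refine ⟨Point.some _ _ hns, fun n hn => ?_⟩
  refine infinite_orderW ((shortW (0 : F) (-34992))⁄F) (by simp [shortW]) (by simp [shortW])
    (by simp [shortW]) (by simp [shortW]) ?_ 73 595 (by norm_num) ?_ hns n hn
  · intro x y h
    have := (eqn (x : F) (y : F)).1 h
    exact_mod_cast this
  · have := val_odd 73 (by norm_num)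
    norm_num at this ⊢
    exact this

end

end Pool.Agent.H42.Cub
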