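import Pool.Agent.Lib.H42.Cub.Char

/-!
# The Jacobi sum of a cubic character (helper42)
-/

set_option autoImplicit false

open QuadraticAlgebra Finset

namespace Pool.Agent.H42.Cub

section

variable (p : ℕ) [hp : Fact p.Prime] (h3 : p % 3 = 1)

include h3 in
/-- There is a cubic character reducing to the cubic residue power. -/
theorem exists_char (r : ZMod p) (hr : r ^ 2 + r + 1 = 0) :
    ∃ χ : MulChar (ZMod p) R, orderOf χ = 3 ∧ ∀ x, redHom r hr (χ x) = cr p x := by
  obtain ⟨χ, hχ⟩ := MulChar.exists_mulChar_orderOf (ZMod p) (n := 3)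
    (by rw [ZMod.card]; omega) w_primitive
  have hχ3 : χ ^ 3 = 1 := by rw [← hχ]; exact pow_orderOf_eq_one χ
  obtain ⟨u, hu⟩ := IsCyclic.exists_generator (α := (ZMod p)ˣ)
  have hu' : ∀ x : (ZMod p)ˣ, ∃ k : ℕ, u ^ k = x := by
    intro x
    have := hu x
    rwa [← mem_powers_iff_mem_zpowers, Submonoid.mem_powers_iff] at this
  have key : ∀ η : MulChar (ZMod p) R, redHom r hr (η u) = cr p u →
      ∀ x, redHom r hr (η x) = cr p x := by
    intro η hη x
    by_cases hx : x = 0
    · rw [hx, MulChar.map_zero, map_zero, cr_zero p h3]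
    · obtain ⟨k, hk⟩ := hu' (Units.mk0 x hx)
      have hk' : (u : ZMod p) ^ k = x := by
        rw [← Units.val_pow_eq_pow_val, hk]; rfl
      rw [← hk', map_pow, map_pow, hη, cr_pow]
  obtain ⟨i, hi, hi'⟩ := MulChar.exists_apply_eq_pow hχ3 w_primitive u.ne_zero
  obtain ⟨j, hj, hj'⟩ := cr_root p h3 u u.ne_zero r hr
  have hi0 : i ≠ 0 := by
    rintro rfl
    have h1 : χ = 1 := by
      refine MulChar.ext fun x => ?_
      obtain ⟨k, hk⟩ := hu' x
      rw [← hk, Units.val_pow_eq_pow_val, map_pow, hi', MulChar.one_apply (u.isUnit.pow k)]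
      simp
    rw [h1, orderOf_one] at hχ
    norm_num at hχ
  have hj0 : j ≠ 0 := by
    rintro rfl
    rw [pow_zero] at hj'
    unfold cr at hj'
    have h1 : u ^ ((p - 1) / 3) = 1 := by
      ext
      rw [Units.val_pow_eq_pow_val, hj']; rfl
    have h2 := orderOf_dvd_of_pow_eq_one h1
    have h4 : orderOf u = p - 1 := by
      rw [orderOf_eq_card_of_forall_mem_zpowers hu, Nat.card_eq_fintype_card,
        ZMod.card_units_eq_totient, Nat.totient_prime hp.out]
    rw [h4] at h2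
    have h5 := hp.out.two_le
    have h6 := Nat.le_of_dvd (by omega) h2
    omega
  by_cases hij : i = j
  · refine ⟨χ, hχ, key χ ?_⟩
    rw [hi', hj', map_pow, redHom_w, hij]
  · refine ⟨χ ^ 2, ?_, key _ ?_⟩
    · rw [orderOf_pow, hχ]
      norm_num
    · rw [MulChar.pow_apply' _ two_ne_zero, hi', hj', map_pow, map_pow, redHom_w]
      have : (i = 1 ∧ j = 2) ∨ (i = 2 ∧ j = 1) := by omega
      rcases this with ⟨rfl, rfl⟩ | ⟨rfl, rfl⟩
      · ring
      · rw [← pow_mul]
        linear_combination r * root_cube hr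

variable {p} in
theorem sum_pow_zero (i : ℕ) (hi : i < p - 1) : ∑ x : ZMod p, x ^ i = 0 := by
  apply FiniteField.sum_pow_lt_card_sub_one
  rw [ZMod.card]
  exact hi

include h3 in
theorem red_jac (r : ZMod p) (hr : r ^ 2 + r + 1 = 0) (χ : MulChar (ZMod p) R)
    (hχ : ∀ x, redHom r hr (χ x) = cr p x) : redHom r hr (jacobiSum χ χ) = 0 := by
  unfold jacobiSum
  rw [map_sum]
  have h1 : ∀ x : ZMod p, redHom r hr (χ x * χ (1 - x)) =
      ∑ k ∈ range ((p - 1) / 3 + 1),
        x ^ ((p - 1) / 3 + k) * ((-1) ^ k * (((p - 1) / 3).choose k : ZMod p)) := by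
    intro x
    rw [map_mul, hχ, hχ]
    unfold cr
    have : (1 - x) = (-x) + 1 := by ring
    rw [this, add_pow, Finset.mul_sum]
    refine Finset.sum_congr rfl fun k _ => ?_
    rw [one_pow, mul_one, neg_pow, pow_add]
    ring
  rw [Finset.sum_congr rfl (fun x _ => h1 x), Finset.sum_comm]
  refine Finset.sum_eq_zero fun k hk => ?_
  rw [← Finset.sum_mul, sum_pow_zero, zero_mul]
  rw [mem_range] at hk
  have := hp.out.two_le
  omega

theorem ringChar_frac : ringChar (FractionRing R) = 0 := by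
  have : CharZero (FractionRing R) := inferInstance
  exact ringChar.eq_zero

/-- Inverse and conjugate characters agree. -/
theorem inv_char (χ : MulChar (ZMod p) R) (hχ : χ ^ 3 = 1) : χ⁻¹ = χ.ringHomComp cj := by
  refine MulChar.ext fun x => ?_
  rw [MulChar.ringHomComp_apply]
  obtain ⟨i, hi, hi'⟩ := MulChar.exists_apply_eq_pow hχ w_primitive x.ne_zero
  have h1 : χ⁻¹ = χ ^ 2 := by
    rw [inv_eq_iff_mul_eq_one, ← pow_succ', hχ]
  rw [h1, MulChar.pow_apply' _ two_ne_zero, hi', map_pow, cj_w, ← pow_mul, ← pow_mul, mul_comm]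

theorem norm_jac (χ : MulChar (ZMod p) R) (hχ : orderOf χ = 3) : N (jacobiSum χ χ) = p := by
  have hχ3 : χ ^ 3 = 1 := by rw [← hχ]; exact pow_orderOf_eq_one χ
  set ι := algebraMap R (FractionRing R) with hι
  have hinj : Function.Injective ι := IsFractionRing.injective R (FractionRing R)
  have hne : χ ≠ 1 := by
    rintro rfl
    rw [orderOf_one] at hχ
    norm_num at hχ
  have hne2 : χ * χ ≠ 1 := by
    rw [← pow_two]
    intro h
    have := orderOf_dvd_of_pow_eq_one h
    rw [hχ] at this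
    norm_num at this
  have hne' : χ.ringHomComp ι ≠ 1 := (MulChar.ringHomComp_ne_one_iff hinj).2 hne
  have hne2' : χ.ringHomComp ι * χ.ringHomComp ι ≠ 1 := by
    rw [← MulChar.ringHomComp_mul]
    exact (MulChar.ringHomComp_ne_one_iff hinj).2 hne2
  have h1 := jacobiSum_mul_jacobiSum_inv (F := ZMod p) (F' := FractionRing R)
    (by rw [ringChar_frac, ZMod.ringChar_zmod_n]; exact hp.out.ne_zero.symm) hne' hne' hne2'
  rw [MulChar.ringHomComp_inv, jacobiSum_ringHomComp, jacobiSum_ringHomComp, ← map_mul,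
    inv_char p χ hχ3, jacobiSum_ringHomComp, mul_cj, ZMod.card] at h1
  have h2 : ι ((N (jacobiSum χ χ) : ℤ) : R) = ι ((p : ℤ) : R) := by
    rw [h1]; simp
  have h4 := hinj h2
  exact_mod_cast h4

include h3 in
theorem jac_cong (χ : MulChar (ZMod p) R) (hχ : orderOf χ = 3) :
    ∃ z : R, jacobiSum χ χ = -1 + 3 * z := by
  have hχ3 : χ ^ 3 = 1 := by rw [← hχ]; exact pow_orderOf_eq_one χ
  obtain ⟨z, -, hz⟩ := exists_jacobiSum_eq_neg_one_add (F := ZMod p) (R := R) (n := 3)
    (by norm_num) hχ3 hχ3 (by rw [ZMod.card]; omega) w_primitive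
  refine ⟨-w * z, ?_⟩
  rw [hz]
  linear_combination z * w_poly

/-- The Jacobi sum is the primary prime. -/
theorem exists_char_jac (m n : ℤ) (hN : N ⟨3 * m - 1, 3 * n⟩ = p) (r : ZMod p)
    (hr : r ^ 2 + r + 1 = 0) (h0 : ((3 * m - 1 : ℤ) : ZMod p) + (3 * n : ℤ) * r = 0) :
    ∃ χ : MulChar (ZMod p) R, orderOf χ = 3 ∧ (∀ x, redHom r hr (χ x) = cr p x) ∧
      jacobiSum χ χ = ⟨3 * m - 1, 3 * n⟩ := by
  have h3 : p % 3 = 1 := by
    have h := hN
    rw [N_def] at h
    simp only at h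
    have : (p : ℤ) = 3 * (3 * m ^ 2 - 2 * m - 3 * m * n + n + 3 * n ^ 2) + 1 := by
      rw [← h]; ring
    omega
  obtain ⟨χ, hχ, hχ'⟩ := exists_char p h3 r hr
  refine ⟨χ, hχ, hχ', ?_⟩
  set g : R := ⟨3 * m - 1, 3 * n⟩ with hg
  have hgp : Prime g := prime_of_N g (by rw [hN]; exact Nat.prime_iff_prime_int.1 hp.out)
  have hdvd : g ∣ jacobiSum χ χ := (redHom_zero_iff g hgp r hr h0 _).1 (red_jac p h3 r hr χ hχ')
  obtain ⟨t, ht⟩ := hdvd
  have hNt : N t = 1 := by
    have h1 := norm_jac p χ hχ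
    rw [ht, map_mul, hN] at h1
    have hp0 : (p : ℤ) ≠ 0 := by exact_mod_cast hp.out.ne_zero
    have : (p : ℤ) * N t = p * 1 := by rw [h1, mul_one]
    exact mul_left_cancel₀ hp0 this
  obtain ⟨z, hz⟩ := jac_cong p h3 χ hχ
  obtain ⟨k, hk, hk'⟩ := unit_eq t ((isUnit_iff t).2 hNt)
  have e1 : (jacobiSum χ χ).re = -1 + 3 * z.re := by rw [hz]; simp
  have e2 : (jacobiSum χ χ).im = 3 * z.im := by rw [hz]; simp
  rw [ht] at e1 e2
  have ht1 : t = 1 := by
    interval_cases k
    · rcases hk' with h | h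
      · rw [h, pow_zero]
      · exfalso
        rw [h, hg] at e1
        simp at e1
        omega
    · exfalso
      rcases hk' with h | h <;> rw [h, hg] at e1 e2 <;> simp at e1 e2 <;> omega
    · exfalso
      rcases hk' with h | h <;> rw [h, hg, w_sq] at e1 e2 <;> simp at e1 e2 <;> omega
  rw [ht, ht1, mul_one]

end

end Pool.Agent.H42.Cub
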