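import Mathlib

/-!
# Pure cubic extensions (helper42)
-/

set_option autoImplicit false
set_option linter.unusedSectionVars false

open Polynomial

namespace Pool.Agent.H42.Cub

section

variable {F L : Type} [Field F] [Field L] [Algebra F L] (hfin : Module.finrank F L = 3)
  (θ : L) (α : F) (hθ : θ ^ 3 = algebraMap F L α) (hα : ∀ b : F, b ^ 3 ≠ α)

include hθ hα in
theorem minpoly_theta : minpoly F θ = X ^ 3 - C α := by
  have hirr : Irreducible (X ^ 3 - C α) := X_pow_sub_C_irreducible_of_prime Nat.prime_three hα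
  exact (minpoly.eq_of_irreducible_of_monic hirr (by simp [hθ])
    (monic_X_pow_sub_C α three_ne_zero)).symm

include hθ hα in
theorem kummer_li (a b c : F)
    (h : algebraMap F L a + algebraMap F L b * θ + algebraMap F L c * θ ^ 2 = 0) :
    a = 0 ∧ b = 0 ∧ c = 0 := by
  by_contra hne
  set P : F[X] := C a + C b * X + C c * X ^ 2 with hP
  have hP0 : P ≠ 0 := by
    intro h0
    apply hne
    have e0 := congrArg (fun q : F[X] => q.coeff 0) h0
    have e1 := congrArg (fun q : F[X] => q.coeff 1) h0
    have e2 := congrArg (fun q : F[X] => q.coeff 2) h0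
    simp [hP, coeff_X, coeff_C, coeff_X_pow] at e0 e1 e2
    exact ⟨e0, e1, e2⟩
  have hroot : aeval θ P = 0 := by
    rw [hP]
    simpa using h
  have h1 := minpoly.degree_le_of_ne_zero F θ hP0 hroot
  rw [minpoly_theta θ α hθ hα, degree_X_pow_sub_C (by norm_num)] at h1
  have h2 : P.degree ≤ 2 := by
    rw [hP]
    compute_degree
  have h3 := h1.trans h2
  norm_num at h3

include hfin hθ hα in
theorem kummer_rep (x : L) : ∃ a b c : F,
    x = algebraMap F L a + algebraMap F L b * θ + algebraMap F L c * θ ^ 2 := by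
  have hli : LinearIndependent F ![(1 : L), θ, θ ^ 2] := by
    rw [Fintype.linearIndependent_iff]
    intro g hg
    rw [Fin.sum_univ_three] at hg
    simp only [Matrix.cons_val_zero, Matrix.cons_val_one, Matrix.cons_val, Algebra.smul_def,
      mul_one] at hg
    obtain ⟨h0, h1, h2⟩ := kummer_li θ α hθ hα _ _ _ hg
    intro i
    fin_cases i
    · exact h0
    · exact h1
    · exact h2
  have hspan := hli.span_eq_top_of_card_eq_finrank (by simp [hfin])
  have hx : x ∈ Submodule.span F (Set.range ![(1 : L), θ, θ ^ 2]) := by rw [hspan]; trivial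
  rw [Submodule.mem_span_range_iff_exists_fun] at hx
  obtain ⟨g, hg⟩ := hx
  rw [Fin.sum_univ_three] at hg
  simp only [Matrix.cons_val_zero, Matrix.cons_val_one, Matrix.cons_val, Algebra.smul_def,
    mul_one] at hg
  exact ⟨g 0, g 1, g 2, hg.symm⟩

include hfin hθ hα in
theorem kummer_sigma (z : F) (hz : z ^ 3 = 1) : ∃ σ : L →ₐ[F] L, σ θ = algebraMap F L z * θ := by
  have _ : FiniteDimensional F L := Module.finite_of_finrank_pos (by rw [hfin]; norm_num)
  have hint : IsIntegral F θ := Algebra.IsIntegral.isIntegral θ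
  have hadj : Algebra.adjoin F {θ} = ⊤ := by
    rw [eq_top_iff]
    rintro x -
    obtain ⟨a, b, c, rfl⟩ := kummer_rep hfin θ α hθ hα x
    have h1 : θ ∈ Algebra.adjoin F {θ} := Algebra.subset_adjoin rfl
    have h2 : ∀ r : F, algebraMap F L r ∈ Algebra.adjoin F {θ} := fun r =>
      (Algebra.adjoin F {θ}).algebraMap_mem r
    exact add_mem (add_mem (h2 a) (mul_mem (h2 b) h1)) (mul_mem (h2 c) (pow_mem h1 2))
  let pb := PowerBasis.ofAdjoinEqTop hint hadj
  have hgen : pb.gen = θ := PowerBasis.ofAdjoinEqTop_gen hint hadj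
  have hroot : Polynomial.aeval (algebraMap F L z * θ) (minpoly F pb.gen) = 0 := by
    rw [hgen, minpoly_theta θ α hθ hα]
    simp only [map_sub, map_pow, aeval_X, aeval_C]
    rw [mul_pow, ← map_pow, hz, map_one, one_mul, hθ, sub_self]
  exact ⟨pb.lift _ hroot, (congrArg _ hgen.symm).trans (pb.lift_gen _ hroot)⟩

end

end Pool.Agent.H42.Cub
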