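import Pool.Agent.Lib.H42.Cub.NoSol
import Pool.Agent.Lib.H42.Cub.Inf
import Pool.Agent.Lib.H42.Cub.Kummer
import Pool.Agent.Lib.H60.UDef.Criterion

/-!
# Rank stability in cyclic cubic extensions of `ℚ(w)` (helper42)
-/

set_option autoImplicit false
set_option linter.unusedSectionVars false

open QuadraticAlgebra Pool.Agent.H60.UDef

namespace Pool.Agent.H42.Cub

instance factQ : Fact (∀ r : ℚ, r ^ 2 ≠ -1 + -1 * r) := ⟨by
  intro r h
  nlinarith [sq_nonneg (2 * r + 1)]⟩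

/-- The field `ℚ(w)`. -/
abbrev F3 := QuadraticAlgebra ℚ (-1 : ℚ) (-1 : ℚ)

/-- The cube root of unity. -/
def w3 : F3 := ⟨0, 1⟩

theorem w3_poly : w3 ^ 2 + w3 + 1 = 0 := by
  rw [pow_two]
  ext <;> simp [w3]

/-- The inclusion of the Eisenstein integers. -/
noncomputable def io : R →+* F3 := redHom w3 w3_poly

theorem io_re (x : R) : (io x).re = x.re := by
  rw [io, redHom_apply, re_add, re_mul]
  simp [w3]

theorem io_im (x : R) : (io x).im = x.im := by
  rw [io, redHom_apply, im_add, im_mul]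
  simp [w3]

theorem io_injective : Function.Injective io := by
  intro x y h
  have h1 := congrArg QuadraticAlgebra.re h
  have h2 := congrArg QuadraticAlgebra.im h
  rw [io_re, io_re] at h1
  rw [io_im, io_im] at h2
  ext
  · exact_mod_cast h1
  · exact_mod_cast h2

theorem clear_den (x : F3) : ∃ (d : ℤ) (y : R), d ≠ 0 ∧ io y = (d : F3) * x := by
  refine ⟨x.re.den * x.im.den, ⟨x.re.num * x.im.den, x.im.num * x.re.den⟩, ?_, ?_⟩
  · have h1 := x.re.den_nz
    have h2 := x.im.den_nz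
    positivity
  · have e1 : (x.re.num : ℚ) = x.re * x.re.den := (Rat.mul_den_eq_num x.re).symm
    have e2 : (x.im.num : ℚ) = x.im * x.im.den := (Rat.mul_den_eq_num x.im).symm
    ext
    · rw [io_re, re_mul]
      simp
      linear_combination (x.im.den : ℚ) * e1
    · rw [io_im, im_mul]
      simp
      linear_combination (x.re.den : ℚ) * e2

theorem clear_den3 (x y z : F3) : ∃ (d : ℤ) (x' y' z' : R), d ≠ 0 ∧ io x' = (d : F3) * x ∧
    io y' = (d : F3) * y ∧ io z' = (d : F3) * z := by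
  obtain ⟨d1, x1, h1, e1⟩ := clear_den x
  obtain ⟨d2, y1, h2, e2⟩ := clear_den y
  obtain ⟨d3, z1, h3, e3⟩ := clear_den z
  refine ⟨d1 * d2 * d3, (d2 * d3 : ℤ) * x1, (d1 * d3 : ℤ) * y1, (d1 * d2 : ℤ) * z1,
    mul_ne_zero (mul_ne_zero h1 h2) h3, ?_, ?_, ?_⟩
  · rw [map_mul, map_intCast, e1]; push_cast; ring
  · rw [map_mul, map_intCast, e2]; push_cast; ring
  · rw [map_mul, map_intCast, e3]; push_cast; ring

/-- Transfer of unsolvability to the field. -/
theorem transfer (A : R) (h : ∀ X Y Z : R, X ^ 3 + Y ^ 3 = A * Z ^ 3 → Z = 0) (X Y Z : F3)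
    (hE : X ^ 3 + Y ^ 3 = io A * Z ^ 3) : Z = 0 := by
  obtain ⟨d, x, y, z, hd, e1, e2, e3⟩ := clear_den3 X Y Z
  have h1 : z = 0 := by
    refine h x y z (io_injective ?_)
    rw [map_add, map_pow, map_pow, map_mul, map_pow, e1, e2, e3]
    linear_combination (d : F3) ^ 3 * hE
  rw [h1, map_zero] at e3
  have hdF : (d : F3) ≠ 0 := by exact_mod_cast hd
  exact (mul_eq_zero.1 e3.symm).resolve_left hdF

section

variable {p : ℕ} [hp : Fact p.Prime] {m n : ℤ} {i0 : ℕ} {g h : R} (S : Data p m n i0 g h)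

include S in
theorem not_cube (b : F3) : b ^ 3 ≠ io (g ^ 2 * h) := by
  intro hb
  obtain ⟨d, y, hd, e⟩ := clear_den b
  have h1 : y ^ 3 = (d : R) ^ 3 * (g ^ 2 * h) := by
    apply io_injective
    rw [map_pow, e, map_mul io ((d : R) ^ 3), map_pow, map_intCast]
    linear_combination (d : F3) ^ 3 * hb
  have h2 : (d : R) ∣ y := by
    rw [← IsIntegrallyClosed.pow_dvd_pow_iff three_ne_zero]
    exact ⟨_, h1⟩
  obtain ⟨t, rfl⟩ := h2
  have hdR : (d : R) ≠ 0 := by exact_mod_cast hd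
  have h3 : t ^ 3 = g ^ 2 * h := by
    have : (d : R) ^ 3 * t ^ 3 = (d : R) ^ 3 * (g ^ 2 * h) := by rw [← h1]; ring
    exact mul_left_cancel₀ (pow_ne_zero 3 hdR) this
  have h4 : g ∣ t := by
    apply S.gP.dvd_of_dvd_pow (n := 3)
    rw [h3]
    exact ⟨g * h, by ring⟩
  obtain ⟨t', rfl⟩ := h4
  have h5 : g * t' ^ 3 = h := by
    have : g ^ 2 * (g * t' ^ 3) = g ^ 2 * h := by rw [← h3]; ring
    exact mul_left_cancel₀ (pow_ne_zero 2 S.gP.ne_zero) this
  exact S.not_dvd_g_h ⟨_, h5.symm⟩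

include S in
/-- Rank stability. -/
theorem rankStable (L : Type) [Field L] [Algebra F3 L] (hfin : Module.finrank F3 L = 3) (θ : L)
    (hθ : θ ^ 3 = algebraMap F3 L (io (g ^ 2 * h))) : RankStable F3 L := by
  refine ⟨0, -34992, by norm_num,
    @exists_infinite_order F3 _ _ (fun a b => Classical.propDecidable (a = b)), 9, by norm_num,
    fun P => ?_⟩
  obtain ⟨σ, hσ⟩ := kummer_sigma hfin θ _ hθ (not_cube S) w3 (root_cube w3_poly)
  have hA : io (g ^ 2 * h) ≠ 0 := by
    intro h0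
    have : g ^ 2 * h = 0 := io_injective (by rw [h0, map_zero])
    exact mul_ne_zero (pow_ne_zero 2 S.gP.ne_zero) S.hP.ne_zero this
  have h9 : io 9 = 9 := map_ofNat io 9
  refine @nine_smul F3 L _ _ _ _ w3 w3_poly θ (io (g ^ 2 * h)) hA hθ
    (kummer_rep hfin θ _ hθ (not_cube S))
    (kummer_li θ _ hθ (not_cube S)) σ hσ (fun a b => Classical.propDecidable (a = b))
    (fun a b => Classical.propDecidable (a = b)) ?_ ?_ P
  · intro X Y Z hE
    refine transfer (9 * (g ^ 2 * h)) (fun X Y Z hE => S.no_sol_nine X Y Z hE) X Y Z ?_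
    rw [map_mul, h9]
    exact hE
  · intro X Y Z hE
    refine transfer (9 * (g ^ 2 * h) ^ 2) (fun X Y Z hE => S.no_sol_nine_sq X Y Z hE) X Y Z ?_
    rw [map_mul, map_pow, h9]
    exact hE

end

end Pool.Agent.H42.Cub
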