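import Pool.Agent.Lib.H42.Cub.Descent

/-!
# No solutions of `X³ + Y³ = w lam g² h Z³` and of `X³ + Y³ = 9 g² h Z³` (helper42)
-/

set_option autoImplicit false
set_option linter.unusedSectionVars false

open QuadraticAlgebra Finset

namespace Pool.Agent.H42.Cub

section

variable (p : ℕ) [hp : Fact p.Prime] (m n : ℤ) (hN : N ⟨3 * m - 1, 3 * n⟩ = p)

theorem nine_eq : (9 : R) = w * lam ^ 4 := by
  rw [lam_eq]
  linear_combination (-w ^ 3 + 5 * w ^ 2 - 10 * w + 9) * w_poly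

/-- The data of the descent. -/
structure Data (p : ℕ) (m n : ℤ) (i0 : ℕ) (g h : R) : Prop where
  hN : N ⟨3 * m - 1, 3 * n⟩ = p
  hi0 : i0 < 3
  hgood : Good (m % 3).toNat (n % 3).toNat i0
  hg : g = w ^ i0 * ⟨3 * m - 1, 3 * n⟩
  hh : h = cj g

namespace Data

variable {p m n} {i0 : ℕ} {g h : R} (S : Data p m n i0 g h)

include S

theorem Ng : N g = p := by rw [S.hg, map_mul, map_pow, N_w, one_pow, one_mul, S.hN]

theorem Nh : N h = p := by rw [S.hh, N_cj, S.Ng]

theorem gP : Prime g := prime_of_N g (by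
  rw [S.Ng]; exact Nat.prime_iff_prime_int.1 (Fact.out : p.Prime))

theorem hP : Prime h := prime_of_N h (by
  rw [S.Nh]; exact Nat.prime_iff_prime_int.1 (Fact.out : p.Prime))

theorem p3 : p % 3 = 1 := p_mod p m n S.hN

theorem not_dvd_of_N {x y : R} (hx : N x = p) (hxy : x ∣ y) : (p : ℤ) ∣ N y := by
  obtain ⟨z, rfl⟩ := hxy
  rw [map_mul, hx]
  exact dvd_mul_right _ _

theorem lam_not_dvd (x : R) (hx : N x = p) : ¬ lam ∣ x := by
  rintro ⟨z, rfl⟩
  rw [map_mul, N_lam] at hx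
  have := S.p3
  omega

theorem c1 : IsCoprime lam g :=
  (prime_lam.irreducible.coprime_iff_not_dvd).2 (S.lam_not_dvd g S.Ng)

theorem c2 : IsCoprime lam h :=
  (prime_lam.irreducible.coprime_iff_not_dvd).2 (S.lam_not_dvd h S.Nh)

theorem c3 : IsCoprime g h := by
  refine (S.gP.irreducible.coprime_iff_not_dvd).2 ?_
  intro hd
  have hp' : Prime (p : ℤ) := Nat.prime_iff_prime_int.1 hp.out
  -- `g` divides its trace, an integer
  have h1 : g ∣ g + h := dvd_add dvd_rfl hd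
  have h2 : g + h = ((2 * g.re - g.im : ℤ) : R) := by
    rw [S.hh]
    ext
    · rw [re_add, cj_re, re_intCast]; ring_nf; rfl
    · rw [im_add, cj_im, im_intCast]; ring
  rw [h2] at h1
  have h3 := S.not_dvd_of_N S.Ng h1
  rw [N_intCast] at h3
  obtain ⟨a, ha⟩ := hp'.dvd_of_dvd_pow h3
  have h4 : 4 * (p : ℤ) = (2 * g.re - g.im) ^ 2 + 3 * g.im ^ 2 := by
    rw [← S.Ng, N_def]; ring
  have h5 : (p : ℤ) ∣ 3 * g.im ^ 2 := by
    have : 3 * g.im ^ 2 = (p : ℤ) * (4 - p * a ^ 2) := by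
      rw [ha] at h4
      linear_combination -h4
    rw [this]
    exact dvd_mul_right _ _
  have h6 : (p : ℤ) ∣ g.im := by
    rcases hp'.dvd_or_dvd h5 with h | h
    · have h7 : p ∣ 3 := by exact_mod_cast h
      have := (Nat.prime_dvd_prime_iff_eq hp.out Nat.prime_three).1 h7
      have := S.p3
      omega
    · exact hp'.dvd_of_dvd_pow h
  obtain ⟨b, hb⟩ := h6
  rw [ha, hb] at h4
  have h7 : (p : ℤ) * (a ^ 2 + 3 * b ^ 2) = 4 := by
    have : (p : ℤ) * ((p : ℤ) * (a ^ 2 + 3 * b ^ 2)) = p * 4 := by linear_combination -h4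
    exact mul_left_cancel₀ hp'.ne_zero this
  have h8 : (p : ℤ) ∣ 4 := ⟨_, h7.symm⟩
  have h9 : p ∣ 2 ^ 2 := by
    have : p ∣ 4 := by exact_mod_cast h8
    simpa using this
  have h10 := (Nat.prime_dvd_prime_iff_eq hp.out Nat.prime_two).1 (hp.out.dvd_of_dvd_pow h9)
  have := S.p3
  omega

theorem down (X Y Z : R) (hXY : IsCoprime X Y)
    (hE : X ^ 3 + Y ^ 3 = w * (lam * g ^ 2 * h) * Z ^ 3) (hZ : Z ≠ 0) :
    ∃ X' Y' Z' : R, IsCoprime X' Y' ∧ X' ^ 3 + Y' ^ 3 = w * (lam * g ^ 2 * h) * Z' ^ 3 ∧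
      Z' ≠ 0 ∧ lam * Z' ∣ Z := by
  have hA : lam ∣ X + Y := by
    have h1 : lam ∣ (X + Y) * ((w * X + w ^ 2 * Y) * (w ^ 2 * X + w * Y)) := by
      have e : (X + Y) * ((w * X + w ^ 2 * Y) * (w ^ 2 * X + w * Y)) = X ^ 3 + Y ^ 3 := by
        linear_combination ((X + Y) * (X ^ 2 + Y ^ 2 + w * X * Y)) * w_cube +
          (X + Y) * X * Y * w_poly
      rw [e, hE]
      exact ⟨w * (g ^ 2 * h) * Z ^ 3, by ring⟩
    have e1 : w * X + w ^ 2 * Y = (X + Y) - lam * (X + (1 + w) * Y) := by rw [lam_eq]; ring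
    have e2 : w ^ 2 * X + w * Y = (X + Y) - lam * ((1 + w) * X + Y) := by rw [lam_eq]; ring
    rcases prime_lam.dvd_or_dvd h1 with h2 | h2
    · exact h2
    · rcases prime_lam.dvd_or_dvd h2 with h3 | h3
      · rw [e1] at h3
        have := dvd_add h3 (dvd_mul_right lam (X + (1 + w) * Y))
        rwa [sub_add_cancel] at this
      · rw [e2] at h3
        have := dvd_add h3 (dvd_mul_right lam ((1 + w) * X + Y))
        rwa [sub_add_cancel] at this
  obtain ⟨a, ha⟩ := hA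
  set b := a - (X + (1 + w) * Y) with hb
  set c := a - ((1 + w) * X + Y) with hc
  have hl0 : lam ≠ 0 := prime_lam.ne_zero
  have eb : lam * b = w * X + w ^ 2 * Y := by
    rw [hb, mul_sub, ← ha, lam_eq]; ring
  have ec : lam * c = w ^ 2 * X + w * Y := by
    rw [hc, mul_sub, ← ha, lam_eq]; ring
  have habc : lam ^ 3 * (a * b * c) = X ^ 3 + Y ^ 3 := by
    have : lam ^ 3 * (a * b * c) = (lam * a) * (lam * b) * (lam * c) := by ring
    rw [this, ← ha, eb, ec]
    linear_combination ((X + Y) * (X ^ 2 + Y ^ 2 + w * X * Y)) * w_cube +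
          (X + Y) * X * Y * w_poly
  have hsum : a + b + c = 0 := by
    have : lam * (a + b + c) = lam * 0 := by
      rw [mul_add, mul_add, ← ha, eb, ec]
      linear_combination (X + Y) * w_poly
    exact mul_left_cancel₀ hl0 this
  have hZ3 : lam ∣ Z := by
    rw [hE] at habc
    have h1 : lam * (lam * (a * b * c)) = w * (g ^ 2 * h * Z ^ 3) := by
      have : lam * (lam * (lam * (a * b * c))) = lam * (w * (g ^ 2 * h * Z ^ 3)) := by
        linear_combination habc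
      exact mul_left_cancel₀ hl0 this
    have h2 : lam ∣ w * (g ^ 2 * h * Z ^ 3) := ⟨_, h1.symm⟩
    rcases prime_lam.dvd_or_dvd h2 with h3 | h3
    · exfalso
      obtain ⟨z, hz⟩ := h3
      have h5 := congrArg N hz
      rw [map_mul, N_w, N_lam] at h5
      omega
    · rcases prime_lam.dvd_or_dvd h3 with h4 | h4
      · exfalso
        rcases prime_lam.dvd_or_dvd h4 with h5 | h5
        · exact S.lam_not_dvd g S.Ng (prime_lam.dvd_of_dvd_pow h5)
        · exact S.lam_not_dvd h S.Nh h5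
      · exact prime_lam.dvd_of_dvd_pow h4
  obtain ⟨Z₁, rfl⟩ := hZ3
  have hZ1 : Z₁ ≠ 0 := right_ne_zero_of_mul hZ
  have hprod : a * b * c = w * (lam * g ^ 2 * h) * Z₁ ^ 3 := by
    have : lam ^ 3 * (a * b * c) = lam ^ 3 * (w * (lam * g ^ 2 * h) * Z₁ ^ 3) := by
      rw [habc, hE]; ring
    exact mul_left_cancel₀ (pow_ne_zero 3 hl0) this
  obtain ⟨u, v, huv⟩ := hXY
  have eX : X = -w ^ 2 * (w ^ 2 * a - b) := by
    have : lam * X = lam * (-w ^ 2 * (w ^ 2 * a - b)) := by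
      have : lam * (-w ^ 2 * (w ^ 2 * a - b)) = -w ^ 2 * (w ^ 2 * (lam * a) - lam * b) := by ring
      rw [this, ← ha, eb, lam_eq]
      linear_combination (w * X + w * Y - w * Y - X) * w_cube
    exact mul_left_cancel₀ hl0 this
  have eY : Y = w ^ 2 * (w * a - b) := by
    have : lam * Y = lam * (w ^ 2 * (w * a - b)) := by
      have : lam * (w ^ 2 * (w * a - b)) = w ^ 2 * (w * (lam * a) - lam * b) := by ring
      rw [this, ← ha, eb, lam_eq]
      linear_combination (w * Y - Y) * w_cube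
    exact mul_left_cancel₀ hl0 this
  have cab : IsCoprime a b := by
    refine ⟨-u * w ^ 4 + v * w ^ 3, u * w ^ 2 - v * w ^ 2, ?_⟩
    rw [eX, eY] at huv
    linear_combination huv
  have ec' : c = -a - b := by linear_combination hsum
  obtain ⟨s, t, hst⟩ := cab
  have cab : IsCoprime a b := ⟨s, t, hst⟩
  have cac : IsCoprime a c := ⟨s - t, -t, by rw [ec']; linear_combination hst⟩
  have cbc : IsCoprime b c := ⟨t - s, -s, by rw [ec']; linear_combination hst⟩
  obtain ⟨X', Y', Z', k1, k2, k3, k4⟩ := step p m n S.hN i0 S.hi0 S.hgood g h S.hg S.hh S.c1 S.c2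
    S.c3 ![a, b, c] (by
      intro i j hij
      fin_cases i <;> fin_cases j <;> simp at hij ⊢
      · exact cab
      · exact cac
      · exact cab.symm
      · exact cbc
      · exact cac.symm
      · exact cbc.symm) (by simp [Fin.sum_univ_three]; exact hsum) Z₁ hZ1
      (by simp [Fin.prod_univ_three]; exact hprod)
  exact ⟨X', Y', Z', k1, k2, k3, mul_dvd_mul_left lam k4⟩

theorem pow_lam_dvd (k : ℕ) : ∀ (X Y Z : R), IsCoprime X Y →
    X ^ 3 + Y ^ 3 = w * (lam * g ^ 2 * h) * Z ^ 3 → Z ≠ 0 → lam ^ k ∣ Z := by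
  induction k with
  | zero => intro X Y Z _ _ _; rw [pow_zero]; exact one_dvd _
  | succ k ih =>
    intro X Y Z hXY hE hZ
    obtain ⟨X', Y', Z', k1, k2, k3, k4⟩ := S.down X Y Z hXY hE hZ
    rw [pow_succ']
    exact (mul_dvd_mul_left lam (ih X' Y' Z' k1 k2 k3)).trans k4

theorem no_sol_coprime (X Y Z : R) (hXY : IsCoprime X Y)
    (hE : X ^ 3 + Y ^ 3 = w * (lam * g ^ 2 * h) * Z ^ 3) : Z = 0 := by
  by_contra hZ
  obtain ⟨k, hk⟩ := FiniteMultiplicity.of_not_isUnit prime_lam.not_isUnit hZ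
  exact hk (S.pow_lam_dvd (k + 1) X Y Z hXY hE hZ)

theorem not_dvd_g_lam : ¬ g ∣ lam := by
  intro hd
  exact S.gP.not_isUnit (S.c1.isUnit_of_dvd' hd dvd_rfl)

theorem not_dvd_h_lam : ¬ h ∣ lam := by
  intro hd
  exact S.hP.not_isUnit (S.c2.isUnit_of_dvd' hd dvd_rfl)

theorem not_dvd_g_h : ¬ g ∣ h := by
  intro hd
  exact S.gP.not_isUnit (S.c3.isUnit_of_dvd' dvd_rfl hd)

theorem not_dvd_h_g : ¬ h ∣ g := by
  intro hd
  exact S.hP.not_isUnit (S.c3.isUnit_of_dvd' hd dvd_rfl)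

theorem not_prime_dvd_w (q : R) (hq : Prime q) : ¬ q ∣ w := by
  intro hd
  have : IsUnit w := (isUnit_iff w).2 N_w
  exact hq.not_isUnit (isUnit_of_dvd_unit hd this)

/-- The coefficient is cube free. -/
theorem cube_free (q : R) (hq : Prime q) : ¬ q ^ 3 ∣ w * (lam * g ^ 2 * h) := by
  intro hd
  have h1 : q ∣ w * (lam * g ^ 2 * h) := (dvd_pow_self q three_ne_zero).trans hd
  have h2 : q ∣ lam ∨ q ∣ g ∨ q ∣ h := by
    rcases hq.dvd_or_dvd h1 with h3 | h3
    · exact absurd h3 (S.not_prime_dvd_w q hq)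
    · rcases hq.dvd_or_dvd h3 with h4 | h4
      · rcases hq.dvd_or_dvd h4 with h5 | h5
        · exact Or.inl h5
        · exact Or.inr (Or.inl (hq.dvd_of_dvd_pow h5))
      · exact Or.inr (Or.inr h4)
  rcases h2 with h2 | h2 | h2
  · have h3 : Associated q lam := hq.associated_of_dvd prime_lam h2
    have h4 : lam ^ 3 ∣ w * (lam * g ^ 2 * h) := (h3.symm.pow_pow (n := 3)).dvd.trans hd
    obtain ⟨z, hz⟩ := h4
    have h5 : lam ∣ w * (g ^ 2 * h) := by
      refine ⟨lam * z, ?_⟩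
      have : lam * (w * (g ^ 2 * h)) = lam * (lam * (lam * z)) := by linear_combination hz
      exact mul_left_cancel₀ prime_lam.ne_zero this
    rcases prime_lam.dvd_or_dvd h5 with h6 | h6
    · exact S.not_prime_dvd_w lam prime_lam h6
    · rcases prime_lam.dvd_or_dvd h6 with h7 | h7
      · exact S.lam_not_dvd g S.Ng (prime_lam.dvd_of_dvd_pow h7)
      · exact S.lam_not_dvd h S.Nh h7
  · have h3 : Associated q g := hq.associated_of_dvd S.gP h2
    have h4 : g ^ 3 ∣ w * (lam * g ^ 2 * h) := (h3.symm.pow_pow (n := 3)).dvd.trans hd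
    obtain ⟨z, hz⟩ := h4
    have h5 : g ∣ w * (lam * h) := by
      refine ⟨z, ?_⟩
      have : g ^ 2 * (w * (lam * h)) = g ^ 2 * (g * z) := by linear_combination hz
      exact mul_left_cancel₀ (pow_ne_zero 2 S.gP.ne_zero) this
    rcases S.gP.dvd_or_dvd h5 with h6 | h6
    · exact S.not_prime_dvd_w g S.gP h6
    · rcases S.gP.dvd_or_dvd h6 with h7 | h7
      · exact S.not_dvd_g_lam h7
      · exact S.not_dvd_g_h h7
  · have h3 : Associated q h := hq.associated_of_dvd S.hP h2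
    have h4 : h ^ 3 ∣ w * (lam * g ^ 2 * h) := (h3.symm.pow_pow (n := 3)).dvd.trans hd
    obtain ⟨z, hz⟩ := h4
    have h5 : h ∣ w * (lam * g ^ 2) := by
      refine ⟨h * z, ?_⟩
      have : h * (w * (lam * g ^ 2)) = h * (h * (h * z)) := by linear_combination hz
      exact mul_left_cancel₀ S.hP.ne_zero this
    rcases S.hP.dvd_or_dvd h5 with h6 | h6
    · exact S.not_prime_dvd_w h S.hP h6
    · rcases S.hP.dvd_or_dvd h6 with h7 | h7
      · exact S.not_dvd_h_lam h7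
      · exact S.not_dvd_h_g (S.hP.dvd_of_dvd_pow h7)

theorem no_sol_aux (k : ℕ) : ∀ (X Y Z : R), (N X).natAbs + (N Y).natAbs ≤ k →
    X ^ 3 + Y ^ 3 = w * (lam * g ^ 2 * h) * Z ^ 3 → Z = 0 := by
  induction k using Nat.strong_induction_on with
  | _ k ih =>
    intro X Y Z hk hE
    by_cases h0 : X = 0 ∧ Y = 0
    · have h1 : w * (lam * g ^ 2 * h) * Z ^ 3 = 0 := by rw [← hE, h0.1, h0.2]; ring
      have h2 : w * (lam * g ^ 2 * h) ≠ 0 := by
        refine mul_ne_zero ?_ (mul_ne_zero (mul_ne_zero prime_lam.ne_zero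
          (pow_ne_zero 2 S.gP.ne_zero)) S.hP.ne_zero)
        intro h3
        have := N_w
        rw [h3] at this
        simp [N_def] at this
      exact pow_eq_zero_iff three_ne_zero |>.1 ((mul_eq_zero.1 h1).resolve_left h2)
    by_cases hcop : ∀ z ∈ nonunits R, z ≠ 0 → z ∣ X → ¬ z ∣ Y
    · exact S.no_sol_coprime X Y Z (isCoprime_of_dvd X Y h0 hcop) hE
    · push Not at hcop
      obtain ⟨z, hz, hz0, hzX, hzY⟩ := hcop
      obtain ⟨q, hq, hqz⟩ := WfDvdMonoid.exists_irreducible_factor hz hz0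
      have hqP : Prime q := irreducible_iff_prime.1 hq
      obtain ⟨X₁, hX₁⟩ := hqz.trans hzX
      obtain ⟨Y₁, hY₁⟩ := hqz.trans hzY
      have hq3 : q ^ 3 ∣ w * (lam * g ^ 2 * h) * Z ^ 3 := by
        rw [← hE, hX₁, hY₁]
        exact ⟨X₁ ^ 3 + Y₁ ^ 3, by ring⟩
      have hqZ : q ∣ Z := by
        by_contra hqZ
        apply S.cube_free q hqP
        exact hqP.pow_dvd_of_dvd_mul_right 3 (fun h => hqZ (hqP.dvd_of_dvd_pow h)) hq3
      obtain ⟨Z₁, hZ₁⟩ := hqZ
      have hE' : X₁ ^ 3 + Y₁ ^ 3 = w * (lam * g ^ 2 * h) * Z₁ ^ 3 := by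
        have : q ^ 3 * (X₁ ^ 3 + Y₁ ^ 3) = q ^ 3 * (w * (lam * g ^ 2 * h) * Z₁ ^ 3) := by
          rw [hX₁, hY₁, hZ₁] at hE
          linear_combination hE
        exact mul_left_cancel₀ (pow_ne_zero 3 hqP.ne_zero) this
      have hq2 : 2 ≤ N q := by
        have h1 := N_nonneg q
        have h2 : N q ≠ 0 := fun h => hqP.ne_zero ((N_eq_zero q).1 h)
        have h3 : N q ≠ 1 := fun h => hqP.not_isUnit ((isUnit_iff q).2 h)
        omega
      have hlt : (N X₁).natAbs + (N Y₁).natAbs < (N X).natAbs + (N Y).natAbs := by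
        have e1 : N X = N q * N X₁ := by rw [hX₁, map_mul]
        have e2 : N Y = N q * N Y₁ := by rw [hY₁, map_mul]
        have n1 := N_nonneg X₁
        have n2 := N_nonneg Y₁
        have n3 : N X₁ + N Y₁ ≠ 0 := by
          intro h3
          have h4 : X₁ = 0 := (N_eq_zero _).1 (by omega)
          have h5 : Y₁ = 0 := (N_eq_zero _).1 (by omega)
          apply h0
          rw [hX₁, hY₁, h4, h5, mul_zero]
          exact ⟨rfl, rfl⟩
        have n4 : 2 * (N X₁ + N Y₁) ≤ N X + N Y := by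
          rw [e1, e2]
          nlinarith
        have n5 := N_nonneg X
        have n6 := N_nonneg Y
        omega
      have := ih _ (lt_of_lt_of_le hlt hk) X₁ Y₁ Z₁ le_rfl hE'
      rw [hZ₁, this, mul_zero]

theorem no_sol (X Y Z : R) (hE : X ^ 3 + Y ^ 3 = w * (lam * g ^ 2 * h) * Z ^ 3) : Z = 0 :=
  S.no_sol_aux _ X Y Z le_rfl hE

theorem no_sol_nine (X Y Z : R) (hE : X ^ 3 + Y ^ 3 = 9 * (g ^ 2 * h) * Z ^ 3) : Z = 0 := by
  have h1 : lam * Z = 0 := by
    refine S.no_sol X Y (lam * Z) ?_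
    rw [hE, nine_eq]
    ring
  exact (mul_eq_zero.1 h1).resolve_left prime_lam.ne_zero

theorem no_sol_nine_sq (X Y Z : R) (hE : X ^ 3 + Y ^ 3 = 9 * (g ^ 2 * h) ^ 2 * Z ^ 3) :
    Z = 0 := by
  have h1 : cj (g * Z) = 0 := by
    refine S.no_sol_nine (cj X) (cj Y) (cj (g * Z)) ?_
    have h2 := congrArg cj hE
    have hc : cj h = g := by rw [S.hh, cj_cj]
    rw [map_add, map_pow, map_pow] at h2
    rw [h2]
    simp only [map_mul, map_pow, hc, ← S.hh]
    have : cj 9 = 9 := map_ofNat cj 9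
    rw [this]
    ring
  have h2 : g * Z = 0 := by rw [← cj_cj (g * Z), h1, map_zero]
  exact (mul_eq_zero.1 h2).resolve_left S.gP.ne_zero

end Data

end

end Pool.Agent.H42.Cub
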