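import Pool.Agent.Lib.H42.Cub.Jac

/-!
# Rational cubic reciprocity and the supplementary law (helper42)
-/

set_option autoImplicit false

open QuadraticAlgebra Finset

namespace Pool.Agent.H42.Cub

section

variable (p : ℕ) [hp : Fact p.Prime] (h3 : p % 3 = 1)

theorem three_ne_char (q : ℕ) (hq : q.Prime) (hq3 : q ≠ 3) (E : Type) [Field E] [CharP E q] :
    (3 : E) ≠ 0 := by
  intro h
  have h1 : ((3 : ℕ) : E) = 0 := by exact_mod_cast h
  rw [CharP.cast_eq_zero_iff E q] at h1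
  exact hq3 ((Nat.prime_dvd_prime_iff_eq hq Nat.prime_three).1 h1)

theorem prime_sq_mod (q : ℕ) (hq : q.Prime) (hq3 : q ≠ 3) : q * q % 3 = 1 := by
  have h : ¬ 3 ∣ q := by
    intro h
    exact hq3 ((Nat.prime_dvd_prime_iff_eq Nat.prime_three hq).1 h).symm
  have : q % 3 = 1 ∨ q % 3 = 2 := by omega
  rw [Nat.mul_mod]
  rcases this with h | h <;> rw [h]

/-- The Gauss sum argument. -/
theorem gauss_recip (q : ℕ) [hq : Fact q.Prime] (hq3 : q ≠ 3) (hqp : q ≠ p)
    (χ : MulChar (ZMod p) R) (hχ : orderOf χ = 3) :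
    ∃ (E : Type) (_ : Field E) (_ : CharP E q) (s : E) (hs : s ^ 2 + s + 1 = 0),
      redHom s hs (χ (q : ZMod p)) =
        ((p : E) * redHom s hs (jacobiSum χ χ)) ^ ((q * q - 1) / 3) := by
  let E₀ := AlgebraicClosure (ZMod q)
  have hE₀ : CharP E₀ q := charP_of_injective_algebraMap (algebraMap (ZMod q) E₀).injective q
  have hring : ringChar E₀ ≠ ringChar (ZMod p) := by
    rw [ZMod.ringChar_zmod_n, ← CharP.eq E₀ hE₀ (ringChar.charP E₀)]
    exact hqp
  let ψ := AddChar.FiniteField.primitiveChar (ZMod p) E₀ hring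
  let E := CyclotomicField ψ.n E₀
  have hE : CharP E q := charP_of_injective_algebraMap (algebraMap E₀ E).injective q
  obtain ⟨s₀, hs₀⟩ : ∃ s₀ : E₀, s₀ ^ 2 + s₀ + 1 = 0 := by
    have hdeg : (Polynomial.X ^ 2 + Polynomial.X + 1 : Polynomial E₀).degree ≠ 0 := by
      have : (Polynomial.X ^ 2 + Polynomial.X + 1 : Polynomial E₀).degree = 2 := by
        compute_degree!
      rw [this]; norm_num
    obtain ⟨s₀, hs₀⟩ := IsAlgClosed.exists_root _ hdeg
    refine ⟨s₀, ?_⟩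
    simpa [Polynomial.IsRoot.def] using hs₀
  let s : E := algebraMap E₀ E s₀
  have hs : s ^ 2 + s + 1 = 0 := by
    have := congrArg (algebraMap E₀ E) hs₀
    rwa [map_add, map_add, map_pow, map_one, map_zero] at this
  refine ⟨E, inferInstance, hE, s, hs, ?_⟩
  have h3E : (3 : E) ≠ 0 := three_ne_char q hq.out hq3 E
  have hχ3 : χ ^ 3 = 1 := by rw [← hχ]; exact pow_orderOf_eq_one χ
  set φ := redHom s hs with hφ
  set χE : MulChar (ZMod p) E := χ.ringHomComp φ with hχE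
  have hχE1 : χE ≠ 1 := by
    intro h
    have h1 : χ = 1 := by
      refine MulChar.ext fun x => ?_
      obtain ⟨i, hi, hi'⟩ := MulChar.exists_apply_eq_pow hχ3 w_primitive x.ne_zero
      have h2 : χE x = 1 := by rw [h, MulChar.one_apply x.isUnit]
      rw [hχE, MulChar.ringHomComp_apply, hi', map_pow, hφ, redHom_w, rp_nat hs] at h2
      have h4 : rp s (i : ℤ) = rp s ((0 : ℕ) : ℤ) := by rw [h2, ← rp_nat hs, pow_zero]
      have h5 := rp_inj hs h3E h4
      have h6 : i = 0 := by omega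
      rw [hi', h6, pow_zero, MulChar.one_apply x.isUnit]
    rw [h1, orderOf_one] at hχ
    norm_num at hχ
  have hχE3 : χE ^ 3 = 1 := by
    rw [hχE, MulChar.ringHomComp_pow, hχ3]
    refine MulChar.ext fun x => ?_
    rw [MulChar.ringHomComp_apply, MulChar.one_apply x.isUnit, MulChar.one_apply x.isUnit, map_one]
  have hord : orderOf χE = 3 := by
    have : Fact (Nat.Prime 3) := ⟨Nat.prime_three⟩
    exact orderOf_eq_prime hχE3 hχE1
  set G := gaussSum χE ψ.char with hG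
  have hm1 : χE (-1) = 1 := by
    have e1 : χE (-1) ^ 2 = 1 := by rw [← map_pow]; simp
    have e2 : χE (-1) ^ 3 = 1 := by
      rw [← MulChar.pow_apply' _ three_ne_zero, hχE3, MulChar.one_apply isUnit_one.neg]
    calc χE (-1) = χE (-1) ^ 3 * (χE (-1) ^ 2)⁻¹ := by rw [e1, e2]; rw [pow_succ, e1, one_mul] at e2; rw [e2]; simp
      _ = 1 := by rw [e1, e2]; simp
  have hG3 : G ^ 3 = (p : E) * φ (jacobiSum χ χ) := by
    have h1 := gaussSum_pow_eq_prod_jacobiSum (χ := χE) (ψ := ψ.char) (by rw [hord]; norm_num)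
      ψ.prim
    rw [hord, hm1, one_mul, ZMod.card] at h1
    have h2 : Ico 1 (3 - 1) = ({1} : Finset ℕ) := rfl
    rw [h2, prod_singleton, pow_one] at h1
    rw [hG, h1, hχE, jacobiSum_ringHomComp]
  have hqu : IsUnit ((q : ℕ) : ZMod p) := by
    rw [isUnit_iff_ne_zero]
    intro h
    rw [ZMod.natCast_eq_zero_iff] at h
    exact hqp ((Nat.prime_dvd_prime_iff_eq hp.out hq.out).1 h).symm
  have hqq := prime_sq_mod q hq.out hq3
  have hfrob : G ^ (q * q) = gaussSum χE (AddChar.mulShift ψ.char ((q * q : ℕ) : ZMod p)) := by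
    rw [pow_mul, hG, gaussSum_frob q, gaussSum_frob q, ← pow_mul, ← pow_mul,
      AddChar.pow_mulShift]
    congr 1
    have : q * q = 3 * (q * q / 3) + 1 := by omega
    rw [this, pow_succ, pow_mul, hχE3, one_pow, one_mul]
  have hshift : χE ((q : ZMod p)) ^ 2 * G ^ (q * q) = G := by
    have h1 := gaussSum_mulShift χE ψ.char (hqu.unit * hqu.unit)
    rw [hfrob, hG, ← h1]
    congr 1
    · rw [Units.val_mul, map_mul, IsUnit.unit_spec, pow_two]
    · congr 2
      rw [Units.val_mul, IsUnit.unit_spec]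
      push_cast
      ring
  have hG0 : G ≠ 0 := by
    refine gaussSum_ne_zero_of_nontrivial ?_ hχE1 ψ.prim
    rw [ZMod.card]
    intro h
    rw [CharP.cast_eq_zero_iff E q] at h
    exact hqp ((Nat.prime_dvd_prime_iff_eq hq.out hp.out).1 h)
  have hq1 : 1 < q * q := by
    have := hq.out.two_le
    nlinarith
  have h5 : χE ((q : ZMod p)) ^ 2 * G ^ (q * q - 1) = 1 := by
    have e : q * q = q * q - 1 + 1 := by omega
    rw [e, pow_succ G, ← mul_assoc] at hshift
    exact mul_right_cancel₀ hG0 (by rw [hshift, one_mul])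
  have h6 : χE ((q : ZMod p)) ^ 3 = 1 := by
    rw [← MulChar.pow_apply' _ three_ne_zero, hχE3, MulChar.one_apply hqu]
  have h7 : G ^ (q * q - 1) = χE (q : ZMod p) := by
    calc G ^ (q * q - 1) = χE ((q : ZMod p)) ^ 3 * G ^ (q * q - 1) := by rw [h6, one_mul]
      _ = χE ((q : ZMod p)) * (χE ((q : ZMod p)) ^ 2 * G ^ (q * q - 1)) := by ring
      _ = χE (q : ZMod p) := by rw [h5, mul_one]
  have h8 : q * q - 1 = 3 * ((q * q - 1) / 3) := by omega
  rw [← hG3, ← pow_mul, ← h8, h7, hχE, MulChar.ringHomComp_apply]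

/-- Elements of the prime field are fixed by the double Frobenius. -/
theorem int_pow (q : ℕ) [hq : Fact q.Prime] (E : Type) [Field E] [CharP E q] (b : ℤ)
    (hb : (b : E) ≠ 0) : (b : E) ^ (q * q - 1) = 1 := by
  have h1 : (b : E) ^ q = b := by
    have h2 : (ZMod.castHom (dvd_refl q) E) ((b : ZMod q) ^ q) =
        (ZMod.castHom (dvd_refl q) E) (b : ZMod q) := by rw [ZMod.pow_card]
    rw [map_pow, map_intCast] at h2
    exact h2
  have h3 : (b : E) ^ (q * q) = b := by rw [pow_mul, h1, h1]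
  have hq1 : 1 < q * q := by
    have := hq.out.two_le
    nlinarith
  have e : q * q = q * q - 1 + 1 := by omega
  rw [e, pow_succ] at h3
  exact mul_right_cancel₀ hb (by rw [h3, one_mul])

theorem lam_pow (q : ℕ) [hq : Fact q.Prime] (hq3 : q ≠ 3) (E : Type) [Field E] [CharP E q] (s : E)
    (hs : s ^ 2 + s + 1 = 0) : (1 - s) ^ (q * q - 1) = 1 := by
  have h3E : (3 : E) ≠ 0 := three_ne_char q hq.out hq3 E
  have h1 : (1 - s) ^ (q * q) = 1 - s := by
    have h2 : (1 - s) ^ (q * q) = 1 - s ^ (q * q) := by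
      rw [pow_mul, sub_pow_expChar, sub_pow_expChar, one_pow, one_pow, ← pow_mul]
    rw [h2]
    have hqq := prime_sq_mod q hq.out hq3
    have : q * q = 3 * (q * q / 3) + 1 := by omega
    rw [this, pow_succ, pow_mul, root_cube hs, one_pow, one_mul]
  have h0 : 1 - s ≠ 0 := by
    intro h
    apply h3E
    have : s = 1 := by linear_combination -h
    rw [this] at hs
    linear_combination hs
  have hq1 : 1 < q * q := by
    have := hq.out.two_le
    nlinarith
  have e : q * q = q * q - 1 + 1 := by omega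
  rw [e, pow_succ] at h1
  exact mul_right_cancel₀ h0 (by rw [h1, one_mul])

theorem neg_one_pow_char (q : ℕ) [hq : Fact q.Prime] (hq3 : q ≠ 3) (E : Type) [Field E]
    [CharP E q] : (-1 : E) ^ ((q * q - 1) / 3) = 1 := by
  rcases hq.out.eq_two_or_odd with h2 | h2
  · subst h2
    have : (2 : E) = 0 := by
      have := CharP.cast_eq_zero E 2
      exact_mod_cast this
    norm_num
    linear_combination -this
  · apply Even.neg_one_pow
    have hqq := prime_sq_mod q hq.out hq3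
    obtain ⟨k, hk⟩ : ∃ k, q = 2 * k + 1 := ⟨q / 2, by omega⟩
    have h1 : q * q - 1 = 4 * (k * (k + 1)) := by
      rw [hk]
      have : (2 * k + 1) * (2 * k + 1) = 4 * (k * (k + 1)) + 1 := by ring
      omega
    rw [Nat.even_iff]
    omega

/-- The cubic residue power of the prime `q` when `b³ ζ` represents `p g` modulo `q`. -/
theorem local_rule (q : ℕ) [hq : Fact q.Prime] (hq3 : q ≠ 3) (hqp : q ≠ p) (m n : ℤ)
    (hN : N ⟨3 * m - 1, 3 * n⟩ = p) (r : ZMod p)
    (hr : r ^ 2 + r + 1 = 0) (h0 : ((3 * m - 1 : ℤ) : ZMod p) + (3 * n : ℤ) * r = 0) (t : ℤ)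
    (H : ∀ (E : Type) [Field E] [CharP E q] (s : E), s ^ 2 + s + 1 = 0 →
      ((p : E) * (((3 * m - 1 : ℤ) : E) + ((3 * n : ℤ) : E) * s)) ^ ((q * q - 1) / 3) =
        rp s (t * ((q * q - 1) / 3 : ℕ))) :
    cr p (q : ZMod p) = rp r (t * ((q * q - 1) / 3 : ℕ)) := by
  obtain ⟨χ, hχ, hχr, hJ⟩ := exists_char_jac p m n hN r hr h0
  obtain ⟨E, _, _, s, hs, hE⟩ := gauss_recip p q hq3 hqp χ hχ
  have hχ3 : χ ^ 3 = 1 := by rw [← hχ]; exact pow_orderOf_eq_one χ
  have hq0 : ((q : ℕ) : ZMod p) ≠ 0 := by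
    intro h
    rw [ZMod.natCast_eq_zero_iff] at h
    exact hqp ((Nat.prime_dvd_prime_iff_eq hp.out hq.out).1 h).symm
  obtain ⟨e, he, he'⟩ := MulChar.exists_apply_eq_pow hχ3 w_primitive hq0
  rw [hJ, redHom_apply s hs ⟨3 * m - 1, 3 * n⟩, H E s hs, he', map_pow, redHom_w, rp_nat hs] at hE
  have h5 := rp_inj hs (three_ne_char q hq.out hq3 E) hE
  rw [← hχr, he', map_pow, redHom_w, rp_nat hr]
  exact rp_congr r h5

theorem rule_a (q : ℕ) [hq : Fact q.Prime] (m n : ℤ) (hN : N ⟨3 * m - 1, 3 * n⟩ = p)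
    (r : ZMod p) (hr : r ^ 2 + r + 1 = 0)
    (h0 : ((3 * m - 1 : ℤ) : ZMod p) + (3 * n : ℤ) * r = 0) (hqa : (q : ℤ) ∣ 3 * m - 1) :
    cr p (q : ZMod p) = rp r (1 * ((q * q - 1) / 3 : ℕ)) := by
  have hq3 : q ≠ 3 := by
    rintro rfl
    obtain ⟨k, hk⟩ := hqa
    push_cast at hk
    omega
  have hNN : (p : ℤ) = (3 * m - 1) ^ 2 - (3 * m - 1) * (3 * n) + (3 * n) ^ 2 := by
    rw [← hN, N_def]
  have hqp : q ≠ p := by
    rintro rfl
    have h1 : (q : ℤ) ∣ (3 * n) ^ 2 := by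
      have : (3 * n) ^ 2 = (q : ℤ) - (3 * m - 1) * ((3 * m - 1) - (3 * n)) := by rw [hNN]; ring
      rw [this]
      exact dvd_sub dvd_rfl (hqa.mul_right _)
    have h2 : (q : ℤ) ∣ 3 * n := (Nat.prime_iff_prime_int.1 hq.out).dvd_of_dvd_pow h1
    obtain ⟨a, ha⟩ := hqa
    obtain ⟨b, hb⟩ := h2
    rw [ha, hb] at hNN
    have h4 : (q : ℤ) * (a ^ 2 - a * b + b ^ 2) = 1 := by
      have h5 : (q : ℤ) * ((q : ℤ) * (a ^ 2 - a * b + b ^ 2)) = q * 1 := by
        rw [mul_one]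
        nth_rewrite 3 [hNN]
        ring
      exact mul_left_cancel₀ (by exact_mod_cast hq.out.ne_zero) h5
    exact (Nat.prime_iff_prime_int.1 hq.out).not_isUnit (IsUnit.of_mul_eq_one _ h4)
  refine local_rule p q hq3 hqp m n hN r hr h0 1 ?_
  intro E _ _ s hs
  have ha : ((3 * m - 1 : ℤ) : E) = 0 := by
    rw [CharP.intCast_eq_zero_iff E q]
    exact hqa
  have hp' : (p : E) = ((3 * n : ℤ) : E) ^ 2 := by
    have : ((p : ℤ) : E) = ((3 * n : ℤ) : E) ^ 2 := by
      rw [hNN]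
      push_cast at ha ⊢
      linear_combination ((3 * m - 1 : E) - (3 * n : E)) * ha
    exact_mod_cast this
  have hb : ((3 * n : ℤ) : E) ≠ 0 := by
    intro h
    rw [h] at hp'
    have : (p : E) = 0 := by rw [hp']; ring
    rw [CharP.cast_eq_zero_iff E q] at this
    exact hqp ((Nat.prime_dvd_prime_iff_eq hq.out hp.out).1 this)
  rw [ha, hp', zero_add]
  have : ((3 * n : ℤ) : E) ^ 2 * (((3 * n : ℤ) : E) * s) = ((3 * n : ℤ) : E) ^ 3 * s := by ring
  rw [this, mul_pow, ← pow_mul]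
  have hqq := prime_sq_mod q hq.out hq3
  have h8 : 3 * ((q * q - 1) / 3) = q * q - 1 := by omega
  rw [h8, int_pow q E _ hb, one_mul, rp_nat hs, one_mul]

theorem rule_ab (q : ℕ) [hq : Fact q.Prime] (m n : ℤ) (hN : N ⟨3 * m - 1, 3 * n⟩ = p)
    (r : ZMod p) (hr : r ^ 2 + r + 1 = 0)
    (h0 : ((3 * m - 1 : ℤ) : ZMod p) + (3 * n : ℤ) * r = 0)
    (hqa : (q : ℤ) ∣ 3 * (m + n) - 1) :
    cr p (q : ZMod p) = rp r (2 * ((q * q - 1) / 3 : ℕ)) := by
  have hq3 : q ≠ 3 := by
    rintro rfl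
    obtain ⟨k, hk⟩ := hqa
    push_cast at hk
    omega
  have hNN : (p : ℤ) = (3 * m - 1) ^ 2 - (3 * m - 1) * (3 * n) + (3 * n) ^ 2 := by
    rw [← hN, N_def]
  have hp3 : p ≠ 3 := by
    rintro rfl
    have : (3 : ℤ) * (3 * m ^ 2 - 2 * m - 3 * m * n + n + 3 * n ^ 2) = 2 := by
      push_cast at hNN
      linarith
    omega
  have hqp : q ≠ p := by
    rintro rfl
    have h1 : (q : ℤ) ∣ 3 * (3 * m - 1) ^ 2 := by
      have : 3 * (3 * m - 1) ^ 2 = (q : ℤ) +
          (3 * (m + n) - 1) * ((3 * m - 1) * 2 - (3 * n)) := by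
        rw [hNN]; ring
      rw [this]
      exact dvd_add dvd_rfl (hqa.mul_right _)
    have hqi := Nat.prime_iff_prime_int.1 hq.out
    rcases hqi.dvd_or_dvd h1 with h2 | h2
    · have h4 : q ∣ 3 := by exact_mod_cast h2
      exact hq3 ((Nat.prime_dvd_prime_iff_eq hq.out Nat.prime_three).1 h4)
    · have h2 : (q : ℤ) ∣ 3 * m - 1 := hqi.dvd_of_dvd_pow h2
      have h5 : (q : ℤ) ∣ 3 * n := by
        have : 3 * n = (3 * (m + n) - 1) - (3 * m - 1) := by ring
        rw [this]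
        exact dvd_sub hqa h2
      obtain ⟨a, ha⟩ := h2
      obtain ⟨b, hb⟩ := h5
      rw [ha, hb] at hNN
      have h4 : (q : ℤ) * (a ^ 2 - a * b + b ^ 2) = 1 := by
        have h5 : (q : ℤ) * ((q : ℤ) * (a ^ 2 - a * b + b ^ 2)) = q * 1 := by
          rw [mul_one]
          nth_rewrite 3 [hNN]
          ring
        exact mul_left_cancel₀ (by exact_mod_cast hq.out.ne_zero) h5
      exact hqi.not_isUnit (IsUnit.of_mul_eq_one _ h4)
  refine local_rule p q hq3 hqp m n hN r hr h0 2 ?_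
  intro E _ _ s hs
  have hb : ((3 * n : ℤ) : E) = -((3 * m - 1 : ℤ) : E) := by
    have : ((3 * (m + n) - 1 : ℤ) : E) = 0 := by
      rw [CharP.intCast_eq_zero_iff E q]
      exact hqa
    push_cast at this ⊢
    linear_combination this
  set a : E := ((3 * m - 1 : ℤ) : E) with ha
  have hp' : (p : E) = 3 * a ^ 2 := by
    have : ((p : ℤ) : E) = 3 * a ^ 2 := by
      rw [hNN]
      have e1 : (((3 * m - 1) ^ 2 - (3 * m - 1) * (3 * n) + (3 * n) ^ 2 : ℤ) : E) =
          a ^ 2 - a * ((3 * n : ℤ) : E) + ((3 * n : ℤ) : E) ^ 2 := by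
        rw [ha]; push_cast; ring
      rw [e1, hb]
      ring
    exact_mod_cast this
  have ha0 : a ≠ 0 := by
    intro h
    rw [h] at hp'
    have : (p : E) = 0 := by rw [hp']; ring
    rw [CharP.cast_eq_zero_iff E q] at this
    exact hqp ((Nat.prime_dvd_prime_iff_eq hq.out hp.out).1 this)
  rw [hb, hp']
  have : 3 * a ^ 2 * (a + -a * s) = (-1) * s ^ 2 * (a * (1 - s)) ^ 3 := by
    linear_combination (a ^ 3 * (1 - s) * (s ^ 2 - 3 * s + 3)) * hs
  rw [this, mul_pow, mul_pow, neg_one_pow_char q hq3 E, one_mul, ← pow_mul, ← pow_mul]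
  have hqq := prime_sq_mod q hq.out hq3
  have h8 : 3 * ((q * q - 1) / 3) = q * q - 1 := by omega
  rw [h8, mul_pow, int_pow q E _ ha0, lam_pow q hq3 E s hs, mul_one, mul_one, rp_nat hs]
  push_cast
  rfl

end

end Pool.Agent.H42.Cub
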