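import Pool.Agent.Lib.H42.Cub.Eis

/-!
# Three pairwise coprime Eisenstein integers with sum zero and product `w lam g² h Z³` (helper42)
-/

set_option autoImplicit false

open QuadraticAlgebra Finset

namespace Pool.Agent.H42.Cub

theorem slot (q : R) (hq : Prime q) (e : ℕ) (he : e ≠ 0) (v : Fin 3 → R)
    (hc : ∀ i j, i ≠ j → IsCoprime (v i) (v j)) (h : q ^ e ∣ ∏ j, v j) :
    ∃ i, q ^ e ∣ v i ∧ ∀ j, j ≠ i → ¬ q ∣ v j := by
  have h1 : q ∣ ∏ j, v j := (dvd_pow_self q he).trans h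
  obtain ⟨i, -, hi⟩ := hq.exists_mem_finset_dvd h1
  have h2 : ∀ j, j ≠ i → ¬ q ∣ v j := by
    intro j hj hd
    exact hq.not_isUnit ((hc i j hj.symm).isUnit_of_dvd' hi hd)
  refine ⟨i, ?_, h2⟩
  rw [← Finset.mul_prod_erase univ v (mem_univ i)] at h
  refine IsCoprime.dvd_of_dvd_mul_right ?_ h
  refine IsCoprime.prod_right fun j hj => ?_
  refine IsCoprime.pow_left ?_
  exact (hq.irreducible.coprime_iff_not_dvd).2 (h2 j (ne_of_mem_erase hj))

theorem cubes (u : Fin 3 → R) (hc : ∀ i j, i ≠ j → IsCoprime (u i) (u j)) (Z : R)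
    (h : ∏ j, u j = w * Z ^ 3) (j : Fin 3) : ∃ n : ℕ, n < 3 ∧ ∃ x : R, u j = w ^ n * x ^ 3 := by
  rw [← Finset.mul_prod_erase univ u (mem_univ j)] at h
  have h1 : u j * ((∏ i ∈ univ.erase j, u i) * w ^ 2) = Z ^ 3 := by
    rw [← mul_assoc, h]
    linear_combination Z ^ 3 * w_cube
  have hw : IsUnit (w ^ 2) := (isUnit_iff _).2 (by rw [map_pow, N_w, one_pow])
  have h2 : IsCoprime (u j) ((∏ i ∈ univ.erase j, u i) * w ^ 2) := by
    refine (isCoprime_mul_unit_right_right hw _ _).2 ?_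
    exact IsCoprime.prod_right fun i hi => hc j i (ne_of_mem_erase hi).symm
  obtain ⟨d, y, hy⟩ := exists_associated_pow_of_mul_eq_pow' h2 h1
  obtain ⟨n, hn, hn' | hn'⟩ := unit_eq y y.isUnit
  · exact ⟨n, hn, d, by rw [← hy, hn', mul_comm]⟩
  · exact ⟨n, hn, -d, by rw [← hy, hn']; ring⟩

/-- The fixed factor in the slot `j`. -/
def D (g h : R) (i k j : Fin 3) : R :=
  (if j = 2 then lam else 1) * (if j = i then g ^ 2 else 1) * (if j = k then h else 1)

theorem prod_D (g h : R) (i k : Fin 3) : ∏ j, D g h i k j = lam * g ^ 2 * h := by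
  unfold D
  rw [Finset.prod_mul_distrib, Finset.prod_mul_distrib, Finset.prod_ite_eq', Finset.prod_ite_eq',
    Finset.prod_ite_eq']
  simp

theorem w_exp (m : ℕ) (t : R) (ht : IsUnit t) (h : w ^ m = w * t ^ 3) : m % 3 = 1 := by
  obtain ⟨n, hn, hn'⟩ := unit_eq t ht
  have h1 : t ^ 3 = 1 ∨ t ^ 3 = -1 := by
    have e : (w ^ n) ^ 3 = 1 := by rw [← pow_mul, mul_comm, pow_mul, w_cube, one_pow]
    rcases hn' with rfl | rfl
    · exact Or.inl e
    · right
      rw [neg_pow, e]; ring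
  have h2 : w ^ m = w ^ (m % 3) := by
    conv_lhs => rw [← Nat.div_add_mod m 3]
    rw [pow_add, pow_mul, w_cube, one_pow, one_mul]
  rw [h2] at h
  have h3 : m % 3 < 3 := Nat.mod_lt _ (by norm_num)
  interval_cases hm : m % 3
  · exfalso
    rcases h1 with h1 | h1 <;> rw [h1] at h
    · have := congrArg QuadraticAlgebra.im h
      simp at this
    · have := congrArg QuadraticAlgebra.im h
      simp at this
  · rfl
  · exfalso
    rw [w_sq] at h
    rcases h1 with h1 | h1 <;> rw [h1] at h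
    · have := congrArg QuadraticAlgebra.re h
      simp at this
    · have := congrArg QuadraticAlgebra.re h
      simp at this

/-- The normal form. -/
theorem normal (g h : R) (hg : Prime g) (hh : Prime h) (c1 : IsCoprime lam g)
    (c2 : IsCoprime lam h) (c3 : IsCoprime g h) (v : Fin 3 → R)
    (hc : ∀ i j, i ≠ j → IsCoprime (v i) (v j)) (hs : ∑ j, v j = 0) (Z : R) (hZ : Z ≠ 0)
    (hp : ∏ j, v j = w * (lam * g ^ 2 * h) * Z ^ 3) :
    ∃ (i k : Fin 3) (n : Fin 3 → ℕ) (x : Fin 3 → R) (v' : Fin 3 → R),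
      (∀ j, n j < 3) ∧ (∑ j, n j) % 3 = 1 ∧ (∀ j, v' j = D g h i k j * (w ^ (n j) * x j ^ 3)) ∧
      ∑ j, v' j = 0 ∧ (∏ j, x j) ∣ Z ∧ (∀ j, j ≠ i → ¬ g ∣ v' j) ∧ (∀ j, j ≠ k → ¬ h ∣ v' j) ∧
      (∀ j, j ≠ 2 → ¬ lam ∣ v' j) ∧ IsCoprime (v' 0) (v' 1) := by
  obtain ⟨l, hl, hl'⟩ := slot lam prime_lam 1 one_ne_zero v hc
    (by rw [hp, pow_one]; exact ⟨w * (g ^ 2 * h) * Z ^ 3, by ring⟩)
  set e := Equiv.swap (2 : Fin 3) l with he
  set v' : Fin 3 → R := fun j => v (e j) with hv'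
  have hc' : ∀ i j, i ≠ j → IsCoprime (v' i) (v' j) := fun i j hij =>
    hc _ _ (fun h => hij (e.injective h))
  have hs' : ∑ j, v' j = 0 := by
    rw [← hs]; exact Equiv.sum_comp e v
  have hp' : ∏ j, v' j = w * (lam * g ^ 2 * h) * Z ^ 3 := by
    rw [← hp]; exact Equiv.prod_comp e v
  have hl2 : lam ∣ v' 2 := by
    simpa [hv', he] using hl
  have hl2' : ∀ j, j ≠ 2 → ¬ lam ∣ v' j := by
    intro j hj
    apply hl'
    intro h
    apply hj
    have : e j = e 2 := by rw [h, he, Equiv.swap_apply_left]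
    exact e.injective this
  obtain ⟨i, hi, hi'⟩ := slot g hg 2 two_ne_zero v' hc'
    (by rw [hp']; exact ⟨w * (lam * h) * Z ^ 3, by ring⟩)
  obtain ⟨k, hk, hk'⟩ := slot h hh 1 one_ne_zero v' hc'
    (by rw [hp', pow_one]; exact ⟨w * (lam * g ^ 2) * Z ^ 3, by ring⟩)
  rw [pow_one] at hk
  have hD : ∀ j, D g h i k j ∣ v' j := by
    intro j
    unfold D
    refine IsCoprime.mul_dvd ?_ (IsCoprime.mul_dvd ?_ ?_ ?_) ?_
    · refine IsCoprime.mul_left ?_ ?_
      · split_ifs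
        · exact c2
        · exact isCoprime_one_right
        · exact isCoprime_one_left
        · exact isCoprime_one_left
      · split_ifs
        · exact c3.pow_left
        · exact isCoprime_one_right
        · exact isCoprime_one_left
        · exact isCoprime_one_left
    · split_ifs
      · exact c1.pow_right
      · exact isCoprime_one_right
      · exact isCoprime_one_left
      · exact isCoprime_one_left
    · split_ifs with h0
      · rw [h0]; exact hl2
      · exact one_dvd _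
    · split_ifs with h0
      · rw [h0]; exact hi
      · exact one_dvd _
    · split_ifs with h0
      · rw [h0]; exact hk
      · exact one_dvd _
  choose u hu using hD
  have hlg : lam * g ^ 2 * h ≠ 0 :=
    mul_ne_zero (mul_ne_zero prime_lam.ne_zero (pow_ne_zero 2 hg.ne_zero)) hh.ne_zero
  have hup : ∏ j, u j = w * Z ^ 3 := by
    have h1 : (lam * g ^ 2 * h) * ∏ j, u j = (lam * g ^ 2 * h) * (w * Z ^ 3) := by
      rw [← prod_D g h i k, ← Finset.prod_mul_distrib, ← Finset.prod_congr rfl (fun j _ => hu j),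
        hp', prod_D]
      ring
    exact mul_left_cancel₀ hlg h1
  have huc : ∀ i j, i ≠ j → IsCoprime (u i) (u j) := by
    intro a b hab
    refine IsCoprime.of_isCoprime_of_dvd_left (IsCoprime.of_isCoprime_of_dvd_right (hc' a b hab) ?_)
      ?_
    · exact ⟨D g h i k b, by rw [hu b, mul_comm]⟩
    · exact ⟨D g h i k a, by rw [hu a, mul_comm]⟩
  choose n hn x hx using cubes u huc Z hup
  have hprod : ∏ j, u j = w ^ (∑ j, n j) * (∏ j, x j) ^ 3 := by
    rw [← Finset.prod_pow_eq_pow_sum, ← Finset.prod_pow, ← Finset.prod_mul_distrib]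
    exact Finset.prod_congr rfl (fun j _ => hx j)
  rw [hprod] at hup
  have hX0 : ∏ j, x j ≠ 0 := by
    intro h0
    rw [h0] at hup
    have : w * Z ^ 3 = 0 := by rw [← hup]; ring
    rcases mul_eq_zero.1 this with h1 | h1
    · have := congrArg QuadraticAlgebra.im h1
      simp at this
    · exact hZ (pow_eq_zero_iff (three_ne_zero) |>.1 h1)
  have hXZ : (∏ j, x j) ∣ Z := by
    rw [← IsIntegrallyClosed.pow_dvd_pow_iff three_ne_zero]
    refine ⟨w ^ 2 * w ^ (∑ j, n j), ?_⟩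
    have : Z ^ 3 = w ^ 2 * (w * Z ^ 3) := by linear_combination (-Z ^ 3) * w_cube
    rw [this, ← hup]
    ring
  refine ⟨i, k, n, x, v', hn, ?_, ?_, hs', hXZ, hi', hk', hl2', hc' 0 1 (by decide)⟩
  · obtain ⟨t, ht⟩ := hXZ
    have h1 : w ^ (∑ j, n j) = w * t ^ 3 := by
      rw [ht, mul_pow] at hup
      have : (∏ j, x j) ^ 3 * w ^ (∑ j, n j) = (∏ j, x j) ^ 3 * (w * t ^ 3) := by
        rw [mul_comm, hup]; ring
      exact mul_left_cancel₀ (pow_ne_zero 3 hX0) this
    refine w_exp _ t ?_ h1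
    have h2 : IsUnit (t ^ 3) := by
      have h3 : w ^ (∑ j, n j) * (w ^ (∑ j, n j)) ^ 2 = 1 := by
        rw [← pow_succ', ← pow_mul, mul_comm, pow_mul, w_cube, one_pow]
      refine IsUnit.of_mul_eq_one (w * (w ^ (∑ j, n j)) ^ 2) ?_
      calc t ^ 3 * (w * (w ^ (∑ j, n j)) ^ 2) = (w * t ^ 3) * (w ^ (∑ j, n j)) ^ 2 := by ring
        _ = 1 := by rw [← h1, h3]
    exact (isUnit_pow_iff three_ne_zero).1 h2
  · intro j
    rw [hu j, hx j]

end Pool.Agent.H42.Cub
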